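import Pool.Agent.Work.MP_3d4872_al.Un.Rev

/-!
# MP_3d4872_al: the classification of the bilinear maps on a Lie algebra is contained in the
classification of all finite-dimensional algebras

For a bilinear map `β` on the finite-dimensional Lie algebra `L` we consider the algebra
`W = ℂ e + L + L' + L''` with the multiplication
`(a, x, y, z) (a', x', y', z') = (a a', 2 a x', 3 a y' + a' x + [x, x'], 4 a z' + a' y + β(x, y'))`.
The only idempotent different from `0` is `e`, the eigenspaces of the left multiplication by `e` are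
the four summands, the right multiplication by `e` identifies `L` with `L'` and `L'` with `L''`, and
the remaining products are the bracket and `β`.
-/

set_option autoImplicit false

namespace Pool.Agent.Work.MP_3d4872_al

section Back

variable {L : Type*} [LieRing L] [LieAlgebra ℂ L]

/-- the space `ℂ e + L + L' + L''` -/
abbrev BW (L : Type*) : Type _ := ℂ × L × L × L

/-- the multiplication on `ℂ e + L + L' + L''` -/
noncomputable def backMul (β : L →ₗ[ℂ] L →ₗ[ℂ] L) : BW L →ₗ[ℂ] BW L →ₗ[ℂ] BW L :=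
  LinearMap.mk₂ ℂ (fun u v => (u.1 * v.1, (2 * u.1) • v.2.1,
      (3 * u.1) • v.2.2.1 + v.1 • u.2.1 + ⁅u.2.1, v.2.1⁆,
      (4 * u.1) • v.2.2.2 + v.1 • u.2.2.1 + β u.2.1 v.2.2.1))
    (fun u u' v => by
      refine Prod.ext ?_ (Prod.ext ?_ (Prod.ext ?_ ?_))
      · simp only [Prod.fst_add, Prod.snd_add]
        ring
      · simp only [Prod.fst_add, Prod.snd_add]
        module
      · simp only [Prod.fst_add, Prod.snd_add, add_lie]
        module
      · simp only [Prod.fst_add, Prod.snd_add, map_add, LinearMap.add_apply]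
        module)
    (fun c u v => by
      refine Prod.ext ?_ (Prod.ext ?_ (Prod.ext ?_ ?_))
      · simp only [Prod.smul_fst, Prod.smul_snd, smul_eq_mul]
        ring
      · simp only [Prod.smul_fst, Prod.smul_snd, smul_eq_mul]
        module
      · simp only [Prod.smul_fst, Prod.smul_snd, smul_lie, smul_eq_mul]
        module
      · simp only [Prod.smul_fst, Prod.smul_snd, map_smul, LinearMap.smul_apply, smul_eq_mul]
        module)
    (fun u v v' => by
      refine Prod.ext ?_ (Prod.ext ?_ (Prod.ext ?_ ?_))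
      · simp only [Prod.fst_add, Prod.snd_add]
        ring
      · simp only [Prod.fst_add, Prod.snd_add]
        module
      · simp only [Prod.fst_add, Prod.snd_add, lie_add]
        module
      · simp only [Prod.fst_add, Prod.snd_add, map_add]
        module)
    (fun c u v => by
      refine Prod.ext ?_ (Prod.ext ?_ (Prod.ext ?_ ?_))
      · simp only [Prod.smul_fst, Prod.smul_snd, smul_eq_mul]
        ring
      · simp only [Prod.smul_fst, Prod.smul_snd]
        module
      · simp only [Prod.smul_fst, Prod.smul_snd, lie_smul, smul_eq_mul]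
        module
      · simp only [Prod.smul_fst, Prod.smul_snd, map_smul, smul_eq_mul]
        module)

lemma backMul_apply (β : L →ₗ[ℂ] L →ₗ[ℂ] L) (a a' : ℂ) (x y z x' y' z' : L) :
    backMul β (a, x, y, z) (a', x', y', z') = (a * a', (2 * a) • x',
      (3 * a) • y' + a' • x + ⁅x, x'⁆, (4 * a) • z' + a' • y + β x y') := rfl

/-- the idempotent -/
lemma back_idem (β : L →ₗ[ℂ] L →ₗ[ℂ] L) {u : BW L} (h : backMul β u u = u) (hu : u ≠ 0) :
    u = (1, 0, 0, 0) := by
  obtain ⟨a, x, y, z⟩ := u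
  rw [backMul_apply] at h
  have h1 : a * a = a := congrArg Prod.fst h
  have h2 : (2 * a) • x = x := congrArg (fun u : BW L => u.2.1) h
  have h3 : (3 * a) • y + a • x + ⁅x, x⁆ = y := congrArg (fun u : BW L => u.2.2.1) h
  have h4 : (4 * a) • z + a • y + β x y = z := congrArg (fun u : BW L => u.2.2.2) h
  rcases eq_or_ne a 0 with rfl | ha
  · rw [mul_zero, zero_smul] at h2
    subst h2
    rw [mul_zero, zero_smul, zero_smul, lie_self, zero_add, zero_add] at h3
    subst h3
    rw [mul_zero, zero_smul, zero_smul, map_zero, zero_add, zero_add] at h4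
    subst h4
    exact absurd rfl hu
  · have h5 : a = 1 := mul_left_cancel₀ ha (by rw [h1, mul_one])
    subst h5
    have h6 : x = 0 := by
      have : x = (2 * 1 : ℂ) • x - x := by rw [mul_one, two_smul, add_sub_cancel_right]
      rw [this, h2, sub_self]
    subst h6
    rw [smul_zero, add_zero, lie_self, add_zero, mul_one] at h3
    have h7 : y = 0 := by
      have h8 : (2 : ℂ) • y = 0 := by
        have : (2 : ℂ) • y = (3 : ℂ) • y - y := by module
        rw [this, h3, sub_self]
      exact (smul_eq_zero.1 h8).resolve_left two_ne_zero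
    subst h7
    rw [smul_zero, add_zero, map_zero, add_zero, mul_one] at h4
    have h9 : z = 0 := by
      have h8 : (3 : ℂ) • z = 0 := by
        have : (3 : ℂ) • z = (4 : ℂ) • z - z := by module
        rw [this, h4, sub_self]
      exact (smul_eq_zero.1 h8).resolve_left three_ne_zero
    subst h9
    rfl

/-- an isomorphism of the algebras preserves the structure -/
lemma back_iso_aux {β β' : L →ₗ[ℂ] L →ₗ[ℂ] L} (g : BW L ≃ₗ[ℂ] BW L)
    (hg : ∀ u v, g (backMul β u v) = backMul β' (g u) (g v)) :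
    g (1, 0, 0, 0) = (1, 0, 0, 0) ∧
    ∀ x : L, g (0, x, 0, 0) = (0, (g (0, x, 0, 0)).2.1, 0, 0) ∧
      g (0, 0, x, 0) = (0, 0, (g (0, x, 0, 0)).2.1, 0) ∧
      g (0, 0, 0, x) = (0, 0, 0, (g (0, x, 0, 0)).2.1) := by
  have he : g (1, 0, 0, 0) = (1, 0, 0, 0) := by
    apply back_idem β'
    · rw [← hg, backMul_apply]
      simp
    · intro h
      have h1 : ((1, 0, 0, 0) : BW L) = 0 := g.injective (by rw [h, map_zero])
      have h2 : (1 : ℂ) = 0 := congrArg Prod.fst h1
      exact one_ne_zero h2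
  refine ⟨he, fun x => ?_⟩
  have h1 : g (0, x, 0, 0) = (0, (g (0, x, 0, 0)).2.1, 0, 0) := by
    have h2 := hg (1, 0, 0, 0) (0, x, 0, 0)
    rw [he, backMul_apply] at h2
    have h3 : ((1 * 0, (2 * 1 : ℂ) • x, (3 * 1 : ℂ) • (0 : L) + (0 : ℂ) • (0 : L) + ⁅(0 : L), x⁆,
        (4 * 1 : ℂ) • (0 : L) + (0 : ℂ) • (0 : L) + β 0 0) : BW L) =
        (2 : ℂ) • ((0, x, 0, 0) : BW L) := by
      simp
    rw [h3, map_smul] at h2
    obtain ⟨⟨a, x', y', z'⟩, hw⟩ : ∃ w, w = g (0, x, 0, 0) := ⟨_, rfl⟩
    rw [← hw] at h2 ⊢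
    rw [backMul_apply] at h2
    have e1 : (2 : ℂ) * a = 1 * a := congrArg Prod.fst h2
    have e2 : (2 : ℂ) • y' = (3 * 1 : ℂ) • y' + a • (0 : L) + ⁅(0 : L), x'⁆ :=
      congrArg (fun u : BW L => u.2.2.1) h2
    have e3 : (2 : ℂ) • z' = (4 * 1 : ℂ) • z' + a • (0 : L) + β' 0 y' :=
      congrArg (fun u : BW L => u.2.2.2) h2
    have f1 : a = 0 := by linear_combination e1
    have f2 : y' = 0 := by
      rw [smul_zero, add_zero, zero_lie, add_zero, mul_one] at e2
      have : y' = (3 : ℂ) • y' - (2 : ℂ) • y' := by module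
      rw [this, e2, sub_self]
    have f3 : z' = 0 := by
      rw [smul_zero, add_zero, map_zero, LinearMap.zero_apply, add_zero, mul_one] at e3
      have f4 : (2 : ℂ) • z' = 0 := by
        have : (2 : ℂ) • z' = (4 : ℂ) • z' - (2 : ℂ) • z' := by module
        rw [this, e3, sub_self]
      exact (smul_eq_zero.1 f4).resolve_left two_ne_zero
    rw [f1, f2, f3]
  have h2 : g (0, 0, x, 0) = (0, 0, (g (0, x, 0, 0)).2.1, 0) := by
    have h3 := hg (0, x, 0, 0) (1, 0, 0, 0)
    rw [he, backMul_apply, h1, backMul_apply] at h3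
    simpa using h3
  refine ⟨h1, h2, ?_⟩
  have h3 := hg (0, 0, x, 0) (1, 0, 0, 0)
  rw [he, backMul_apply, h2, backMul_apply] at h3
  simpa using h3

/-- an isomorphism of the algebras gives an equivalence -/
theorem back_iso {β β' : L →ₗ[ℂ] L →ₗ[ℂ] L} (g : BW L ≃ₗ[ℂ] BW L)
    (hg : ∀ u v, g (backMul β u v) = backMul β' (g u) (g v)) : Equivalent β β' := by
  obtain ⟨he, h⟩ := back_iso_aux g hg
  have hg' : ∀ u v, g.symm (backMul β' u v) = backMul β (g.symm u) (g.symm v) := by
    intro u v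
    apply g.injective
    rw [hg, g.apply_symm_apply, g.apply_symm_apply, g.apply_symm_apply]
  obtain ⟨-, h'⟩ := back_iso_aux g.symm hg'
  let φ : L →ₗ[ℂ] L :=
    { toFun := fun x => (g (0, x, 0, 0)).2.1
      map_add' := fun x y => by
        have e : ((0, x + y, 0, 0) : BW L) = (0, x, 0, 0) + (0, y, 0, 0) := by simp
        rw [e, map_add]
        rfl
      map_smul' := fun c x => by
        have e : ((0, c • x, 0, 0) : BW L) = c • (0, x, 0, 0) := by simp
        rw [e, map_smul]
        rfl }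
  let ψ : L → L := fun x => (g.symm (0, x, 0, 0)).2.1
  have hφ : ∀ x, g (0, x, 0, 0) = (0, φ x, 0, 0) := fun x => (h x).1
  have hφ2 : ∀ x, g (0, 0, x, 0) = (0, 0, φ x, 0) := fun x => (h x).2.1
  have hφ3 : ∀ x, g (0, 0, 0, x) = (0, 0, 0, φ x) := fun x => (h x).2.2
  have hψ : ∀ x, g.symm (0, x, 0, 0) = (0, ψ x, 0, 0) := fun x => (h' x).1
  have hφψ : ∀ x, φ (ψ x) = x := by
    intro x
    have h1 := hφ (ψ x)
    rw [← hψ, g.apply_symm_apply] at h1
    exact (congrArg (fun u : BW L => u.2.1) h1).symm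
  have hψφ : ∀ x, ψ (φ x) = x := by
    intro x
    have h1 := hψ (φ x)
    rw [← hφ, g.symm_apply_apply] at h1
    exact (congrArg (fun u : BW L => u.2.1) h1).symm
  have hlie : ∀ x y, φ ⁅x, y⁆ = ⁅φ x, φ y⁆ := by
    intro x y
    have h1 := hg (0, x, 0, 0) (0, y, 0, 0)
    rw [hφ, hφ, backMul_apply, backMul_apply] at h1
    have h2 : ((0 * 0, (2 * 0 : ℂ) • y, (3 * 0 : ℂ) • (0 : L) + (0 : ℂ) • x + ⁅x, y⁆,
        (4 * 0 : ℂ) • (0 : L) + (0 : ℂ) • (0 : L) + β x 0) : BW L) = (0, 0, ⁅x, y⁆, 0) := by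
      simp
    rw [h2, hφ2] at h1
    have h3 := congrArg (fun u : BW L => u.2.2.1) h1
    simpa using h3
  have hβ : ∀ x y, φ (β x y) = β' (φ x) (φ y) := by
    intro x y
    have h1 := hg (0, x, 0, 0) (0, 0, y, 0)
    rw [hφ, hφ2, backMul_apply, backMul_apply] at h1
    have h2 : ((0 * 0, (2 * 0 : ℂ) • (0 : L), (3 * 0 : ℂ) • y + (0 : ℂ) • x + ⁅x, (0 : L)⁆,
        (4 * 0 : ℂ) • (0 : L) + (0 : ℂ) • (0 : L) + β x y) : BW L) = (0, 0, 0, β x y) := by
      simp
    rw [h2, hφ3] at h1
    have h3 := congrArg (fun u : BW L => u.2.2.2) h1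
    simpa using h3
  let Φ : L ≃ₗ⁅ℂ⁆ L :=
    { toFun := φ
      map_add' := map_add φ
      map_smul' := fun c x => map_smul φ c x
      map_lie' := fun {x y} => hlie x y
      invFun := ψ
      left_inv := hψφ
      right_inv := hφψ }
  refine ⟨Φ.symm, fun X Y => ?_⟩
  change β' X Y = φ (β (ψ X) (ψ Y))
  rw [hβ, hφψ, hφψ]

/-- an equivalence gives an isomorphism of the algebras -/
theorem iso_back {β β' : L →ₗ[ℂ] L →ₗ[ℂ] L} (h : Equivalent β β') : ∃ g : BW L ≃ₗ[ℂ] BW L,
    ∀ u v, g (backMul β u v) = backMul β' (g u) (g v) := by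
  obtain ⟨φ, hφ⟩ := h
  let e : L ≃ₗ[ℂ] L := φ.symm.toLinearEquiv
  have he : ∀ x, e x = φ.symm x := fun x => rfl
  have hβ : ∀ x y, φ.symm (β x y) = β' (φ.symm x) (φ.symm y) := by
    intro x y
    rw [hφ, φ.apply_symm_apply, φ.apply_symm_apply]
  refine ⟨(LinearEquiv.refl ℂ ℂ).prodCongr (e.prodCongr (e.prodCongr e)), ?_⟩
  rintro ⟨a, x, y, z⟩ ⟨a', x', y', z'⟩
  change ((LinearEquiv.refl ℂ ℂ).prodCongr (e.prodCongr (e.prodCongr e)))
    (backMul β (a, x, y, z) (a', x', y', z')) =
    backMul β' (a, φ.symm x, φ.symm y, φ.symm z) (a', φ.symm x', φ.symm y', φ.symm z')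
  rw [backMul_apply, backMul_apply]
  refine Prod.ext rfl (Prod.ext ?_ (Prod.ext ?_ ?_))
  · change φ.symm ((2 * a) • x') = (2 * a) • φ.symm x'
    rw [map_smul]
  · change φ.symm ((3 * a) • y' + a' • x + ⁅x, x'⁆) =
      (3 * a) • φ.symm y' + a' • φ.symm x + ⁅φ.symm x, φ.symm x'⁆
    rw [map_add, map_add, map_smul, map_smul, LieEquiv.map_lie]
  · change φ.symm ((4 * a) • z' + a' • y + β x y') =
      (4 * a) • φ.symm z' + a' • φ.symm y + β' (φ.symm x) (φ.symm y')
    rw [map_add, map_add, map_smul, map_smul, hβ]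

/-- a multiplication in coordinates -/
noncomputable def inCoord {W : Type*} [AddCommGroup W] [Module ℂ W] {n : ℕ}
    (e : W ≃ₗ[ℂ] (Fin n → ℂ)) (μ : W →ₗ[ℂ] W →ₗ[ℂ] W) : Alg n :=
  LinearMap.mk₂ ℂ (fun x y => e (μ (e.symm x) (e.symm y)))
    (fun x x' y => by simp) (fun c x y => by simp) (fun x y y' => by simp) (fun c x y => by simp)

lemma inCoord_apply {W : Type*} [AddCommGroup W] [Module ℂ W] {n : ℕ}
    (e : W ≃ₗ[ℂ] (Fin n → ℂ)) (μ : W →ₗ[ℂ] W →ₗ[ℂ] W) (x y : Fin n → ℂ) :
    inCoord e μ x y = e (μ (e.symm x) (e.symm y)) := rfl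

/-- There is an affine map from the bilinear maps on the Lie algebra `L` to the multiplications on
`ℂ^n` such that two of these algebras are isomorphic if and only if the bilinear maps are
equivalent (under the automorphisms of the Lie algebra `L`). -/
def ContainedInAlgebras (n : ℕ) (L : Type*) [LieRing L] [LieAlgebra ℂ L] : Prop :=
  ∃ Ψ : Br L → Alg n, IsAffineMap Ψ ∧ ∀ β β', AlgIso (Ψ β) (Ψ β') ↔ Equivalent β β'

theorem containedInAlgebras [FiniteDimensional ℂ L] :
    ContainedInAlgebras (3 * Module.finrank ℂ L + 1) L := by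
  let e : BW L ≃ₗ[ℂ] (Fin (3 * Module.finrank ℂ L + 1) → ℂ) := LinearEquiv.ofFinrankEq _ _ (by
    rw [Module.finrank_prod, Module.finrank_prod, Module.finrank_prod, Module.finrank_self,
      Module.finrank_fin_fun]
    ring)
  refine ⟨fun β => inCoord e (backMul β), fun β β' t => ?_, fun β β' => ⟨?_, ?_⟩⟩
  · apply LinearMap.ext₂
    intro x y
    change e (backMul (t • β + (1 - t) • β') (e.symm x) (e.symm y)) =
      t • e (backMul β (e.symm x) (e.symm y)) + (1 - t) • e (backMul β' (e.symm x) (e.symm y))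
    have h0 : ∀ A B : BW L, t • e A + (1 - t) • e B = e (t • A + (1 - t) • B) := by
      intro A B
      rw [map_add, map_smul, map_smul]
    rw [h0]
    congr 1
    generalize e.symm x = u
    generalize e.symm y = v
    obtain ⟨a, x, y, z⟩ := u
    obtain ⟨a', x', y', z'⟩ := v
    rw [backMul_apply, backMul_apply, backMul_apply]
    refine Prod.ext ?_ (Prod.ext ?_ (Prod.ext ?_ ?_))
    · change a * a' = t * (a * a') + (1 - t) * (a * a')
      ring
    · change (2 * a) • x' = t • ((2 * a) • x') + (1 - t) • ((2 * a) • x')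
      module
    · change (3 * a) • y' + a' • x + ⁅x, x'⁆ = t • ((3 * a) • y' + a' • x + ⁅x, x'⁆) +
        (1 - t) • ((3 * a) • y' + a' • x + ⁅x, x'⁆)
      module
    · change (4 * a) • z' + a' • y + (t • β + (1 - t) • β') x y' =
        t • ((4 * a) • z' + a' • y + β x y') + (1 - t) • ((4 * a) • z' + a' • y + β' x y')
      rw [LinearMap.add_apply, LinearMap.smul_apply, LinearMap.smul_apply, LinearMap.add_apply,
        LinearMap.smul_apply, LinearMap.smul_apply]
      module
  · rintro ⟨g, hg⟩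
    apply back_iso ((e.trans g).trans e.symm)
    intro u v
    have h1 := hg (e u) (e v)
    rw [inCoord_apply, inCoord_apply, e.symm_apply_apply, e.symm_apply_apply] at h1
    change e.symm (g (e (backMul β u v))) = backMul β' (e.symm (g (e u))) (e.symm (g (e v)))
    rw [h1, e.symm_apply_apply]
  · intro h
    obtain ⟨g, hg⟩ := iso_back h
    refine ⟨(e.symm.trans g).trans e, fun x y => ?_⟩
    change e (g (e.symm (inCoord e (backMul β) x y))) =
      inCoord e (backMul β') (e (g (e.symm x))) (e (g (e.symm y)))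
    rw [inCoord_apply, inCoord_apply, e.symm_apply_apply, e.symm_apply_apply, e.symm_apply_apply,
      hg]

end Back

end Pool.Agent.Work.MP_3d4872_al
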