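import Mathlib

/-!
# MP_3d4872_al: encoding a multiplication by matrices

A bilinear multiplication `μ` on `ℂ^n` is encoded by endomorphisms `Jl`, `Ml μ f`, `yl a` of a space
of dimension `2 n + 1 + r`.
-/

set_option autoImplicit false

namespace Pool.Agent.Work.MP_3d4872_al

open Matrix

/-- the multiplications on `ℂ^n` -/
abbrev Alg (n : ℕ) : Type := (Fin n → ℂ) →ₗ[ℂ] (Fin n → ℂ) →ₗ[ℂ] (Fin n → ℂ)

/-- the index set -/
abbrev UIx (n r : ℕ) : Type := (Fin 2 × Fin n) ⊕ (Unit ⊕ Fin r)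

section

variable {n r : ℕ}

/-- components -/
def cV (r : ℕ) (i : Fin 2) : (UIx n r → ℂ) →ₗ[ℂ] (Fin n → ℂ) :=
  LinearMap.funLeft ℂ ℂ (fun s => Sum.inl (i, s))

/-- components -/
def cK (n r : ℕ) : (UIx n r → ℂ) →ₗ[ℂ] ℂ := LinearMap.proj (Sum.inr (Sum.inl ()))

/-- components -/
def cZ (n : ℕ) : (UIx n r → ℂ) →ₗ[ℂ] (Fin r → ℂ) :=
  LinearMap.funLeft ℂ ℂ (fun s => Sum.inr (Sum.inr s))

lemma cV_apply (i : Fin 2) (w : UIx n r → ℂ) (s : Fin n) : cV r i w s = w (Sum.inl (i, s)) := rfl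
lemma cK_apply (w : UIx n r → ℂ) : cK n r w = w (Sum.inr (Sum.inl ())) := rfl
lemma cZ_apply (w : UIx n r → ℂ) (s : Fin r) : cZ n w s = w (Sum.inr (Sum.inr s)) := rfl

/-- inclusions -/
def eV (r : ℕ) (i : Fin 2) : (Fin n → ℂ) →ₗ[ℂ] (UIx n r → ℂ) where
  toFun v := Sum.elim (fun p => if p.1 = i then v p.2 else 0) (fun _ => 0)
  map_add' u v := by
    ext a
    rcases a with ⟨j, s⟩ | a
    · by_cases h : j = i <;> simp [h]
    · simp
  map_smul' c v := by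
    ext a
    rcases a with ⟨j, s⟩ | a
    · by_cases h : j = i <;> simp [h]
    · simp

/-- inclusions -/
def eK (n r : ℕ) : ℂ →ₗ[ℂ] (UIx n r → ℂ) where
  toFun c := Sum.elim (fun _ => 0) (Sum.elim (fun _ => c) (fun _ => 0))
  map_add' u v := by
    ext a
    rcases a with a | a | a <;> simp
  map_smul' c v := by
    ext a
    rcases a with a | a | a <;> simp

@[simp] lemma cV_eV (i j : Fin 2) (v : Fin n → ℂ) : cV r i (eV r j v) = if i = j then v else 0 := by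
  ext s
  by_cases h : i = j <;> simp [cV_apply, eV, h]

@[simp] lemma cV_eK (i : Fin 2) (c : ℂ) : cV r i (eK n r c) = 0 := rfl
@[simp] lemma cK_eV (i : Fin 2) (v : Fin n → ℂ) : cK n r (eV r i v) = 0 := rfl
@[simp] lemma cK_eK (c : ℂ) : cK n r (eK n r c) = c := rfl
@[simp] lemma cZ_eV (i : Fin 2) (v : Fin n → ℂ) : cZ n (eV r i v) = 0 := rfl
@[simp] lemma cZ_eK (c : ℂ) : cZ n (eK n r c) = 0 := rfl

lemma ext_c {w w' : UIx n r → ℂ} (hV : ∀ i, cV r i w = cV r i w')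
    (hK : cK n r w = cK n r w') (hZ : cZ n w = cZ n w') : w = w' := by
  ext a
  rcases a with ⟨i, s⟩ | k | s
  · exact congrFun (hV i) s
  · exact hK
  · exact congrFun hZ s

lemma eV_inj {i : Fin 2} {v : Fin n → ℂ} (h : eV r i v = 0) : v = 0 := by
  have := congrArg (cV r i) h
  simpa using this

lemma eK_ne : eK n r 1 ≠ 0 := by
  intro h
  have := congrArg (cK n r) h
  simp at this

/-- the shift -/
def Jl (n r : ℕ) : (UIx n r → ℂ) →ₗ[ℂ] (UIx n r → ℂ) := eV r 1 ∘ₗ cV r 0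

/-- the right multiplication by `f` -/
def Ml (r : ℕ) (μ : Alg n) (f : Fin n → ℂ) : (UIx n r → ℂ) →ₗ[ℂ] (UIx n r → ℂ) :=
  eV r 1 ∘ₗ (LinearMap.flip μ f) ∘ₗ cV r 0

/-- the functional `a` -/
def yl (r : ℕ) (a : Fin n → ℂ) : (UIx n r → ℂ) →ₗ[ℂ] (UIx n r → ℂ) where
  toFun w := (a ⬝ᵥ cV r 0 w) • eK n r 1
  map_add' u v := by rw [map_add, dotProduct_add, add_smul]
  map_smul' c v := by rw [map_smul, dotProduct_smul, smul_assoc, RingHom.id_apply]

lemma Jl_apply (w : UIx n r → ℂ) : Jl n r w = eV r 1 (cV r 0 w) := rfl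

lemma Ml_apply (μ : Alg n) (f : Fin n → ℂ) (w : UIx n r → ℂ) :
    Ml r μ f w = eV r 1 (μ (cV r 0 w) f) := rfl

lemma yl_apply (a : Fin n → ℂ) (w : UIx n r → ℂ) :
    yl r a w = (a ⬝ᵥ cV r 0 w) • eK n r 1 := rfl

/-- The matrices. -/
noncomputable def mJ (n r : ℕ) : Matrix (UIx n r) (UIx n r) ℂ := LinearMap.toMatrix' (Jl n r)

/-- The matrices. -/
noncomputable def mM (r : ℕ) (μ : Alg n) (f : Fin n → ℂ) : Matrix (UIx n r) (UIx n r) ℂ :=
  LinearMap.toMatrix' (Ml r μ f)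

/-- The matrices. -/
noncomputable def my (r : ℕ) (a : Fin n → ℂ) : Matrix (UIx n r) (UIx n r) ℂ :=
  LinearMap.toMatrix' (yl r a)

@[simp] lemma mJ_mulVec (w : UIx n r → ℂ) : mJ n r *ᵥ w = Jl n r w :=
  LinearMap.toMatrix'_mulVec _ _

@[simp] lemma mM_mulVec (μ : Alg n) (f : Fin n → ℂ) (w : UIx n r → ℂ) :
    mM r μ f *ᵥ w = Ml r μ f w := LinearMap.toMatrix'_mulVec _ _

@[simp] lemma my_mulVec (a : Fin n → ℂ) (w : UIx n r → ℂ) :
    my r a *ᵥ w = yl r a w := LinearMap.toMatrix'_mulVec _ _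

lemma mat_ext {A B : Matrix (UIx n r) (UIx n r) ℂ} (h : ∀ w, A *ᵥ w = B *ᵥ w) : A = B :=
  Matrix.ext_of_mulVec_single fun _ => h _

lemma mul_ext {A B C : Matrix (UIx n r) (UIx n r) ℂ} (h : ∀ w, A *ᵥ (B *ᵥ w) = C *ᵥ w) :
    A * B = C := mat_ext fun w => by rw [← Matrix.mulVec_mulVec, h]

lemma mul_zero_ext {A B : Matrix (UIx n r) (UIx n r) ℂ} (h : ∀ w, A *ᵥ (B *ᵥ w) = 0) :
    A * B = 0 := mul_ext fun w => by rw [h, Matrix.zero_mulVec]

lemma tr_dot (A : Matrix (UIx n r) (UIx n r) ℂ) (a w : UIx n r → ℂ) :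
    (Aᵀ *ᵥ a) ⬝ᵥ w = a ⬝ᵥ (A *ᵥ w) := by
  rw [Matrix.mulVec_transpose, Matrix.dotProduct_mulVec]

/-- The matrix `mM` as a linear map. -/
noncomputable def mMl (r : ℕ) (μ : Alg n) : (Fin n → ℂ) →ₗ[ℂ] Matrix (UIx n r) (UIx n r) ℂ where
  toFun f := mM r μ f
  map_add' u v := mat_ext fun w => by
    rw [Matrix.add_mulVec, mM_mulVec, mM_mulVec, mM_mulVec, Ml_apply, Ml_apply, Ml_apply, map_add,
      map_add]
  map_smul' c v := mat_ext fun w => by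
    rw [RingHom.id_apply, Matrix.smul_mulVec, mM_mulVec, mM_mulVec, Ml_apply, Ml_apply, map_smul,
      map_smul]

/-- The matrix `my` as a linear map. -/
noncomputable def myl (n r : ℕ) : (Fin n → ℂ) →ₗ[ℂ] Matrix (UIx n r) (UIx n r) ℂ where
  toFun a := my r a
  map_add' u v := mat_ext fun w => by
    rw [Matrix.add_mulVec, my_mulVec, my_mulVec, my_mulVec, yl_apply, yl_apply, yl_apply,
      add_dotProduct, add_smul]
  map_smul' c v := mat_ext fun w => by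
    rw [RingHom.id_apply, Matrix.smul_mulVec, my_mulVec, my_mulVec, yl_apply, yl_apply,
      smul_dotProduct, smul_assoc]

lemma mMl_apply (μ : Alg n) (f : Fin n → ℂ) : mMl r μ f = mM r μ f := rfl
lemma myl_apply (a : Fin n → ℂ) : myl n r a = my r a := rfl

lemma mJ_mJ : mJ n r * mJ n r = 0 := mul_zero_ext fun w => by simp [Jl_apply]
lemma mJ_mM (μ : Alg n) (f : Fin n → ℂ) : mJ n r * mM r μ f = 0 :=
  mul_zero_ext fun w => by simp [Jl_apply, Ml_apply]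
lemma mM_mJ (μ : Alg n) (f : Fin n → ℂ) : mM r μ f * mJ n r = 0 :=
  mul_zero_ext fun w => by simp [Jl_apply, Ml_apply]
lemma mM_mM (μ : Alg n) (f f' : Fin n → ℂ) : mM r μ f * mM r μ f' = 0 :=
  mul_zero_ext fun w => by simp [Ml_apply]
lemma my_mM (a : Fin n → ℂ) (μ : Alg n) (f : Fin n → ℂ) : my r a * mM r μ f = 0 :=
  mul_zero_ext fun w => by simp [yl_apply, Ml_apply]
lemma mM_my (a : Fin n → ℂ) (μ : Alg n) (f : Fin n → ℂ) : mM r μ f * my r a = 0 :=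
  mul_zero_ext fun w => by simp [yl_apply, Ml_apply]
lemma my_my (a b : Fin n → ℂ) : my r a * my r b = 0 :=
  mul_zero_ext fun w => by simp [yl_apply]

lemma mJ_nil : IsNilpotent (mJ n r) := ⟨2, by rw [pow_two, mJ_mJ]⟩
lemma mM_nil (μ : Alg n) (f : Fin n → ℂ) : IsNilpotent (mM r μ f) := ⟨2, by rw [pow_two, mM_mM]⟩
lemma my_nil (a : Fin n → ℂ) : IsNilpotent (my r a) := ⟨2, by rw [pow_two, my_my]⟩

/-- the vector of a functional -/
def vecOf (a : (Fin n → ℂ) →ₗ[ℂ] ℂ) : Fin n → ℂ := fun k => a (Pi.single k 1)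

lemma vec_sum (f : Fin n → ℂ) : f = ∑ k, f k • (Pi.single k 1 : Fin n → ℂ) := by
  ext j
  simp [Finset.sum_apply, Pi.single_apply]

lemma vecOf_dot (a : (Fin n → ℂ) →ₗ[ℂ] ℂ) (f : Fin n → ℂ) : vecOf a ⬝ᵥ f = a f := by
  conv_rhs => rw [vec_sum f, map_sum]
  rw [dotProduct]
  apply Finset.sum_congr rfl
  intro k _
  rw [map_smul, smul_eq_mul, mul_comm]
  rfl

lemma eq_of_dot {f f' : Fin n → ℂ} (h : ∀ v, v ⬝ᵥ f = v ⬝ᵥ f') : f = f' := by
  ext i
  have := h (Pi.single i 1)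
  simpa using this

lemma my_transpose (a : Fin n → ℂ) (u : UIx n r → ℂ) :
    (my r a)ᵀ *ᵥ u = cK n r u • eV r 0 a := by
  have h : ∀ w, ((my r a)ᵀ *ᵥ u) ⬝ᵥ w = (cK n r u • eV r 0 a) ⬝ᵥ w := by
    intro w
    rw [tr_dot, my_mulVec, yl_apply, dotProduct_smul, smul_dotProduct]
    have e1 : u ⬝ᵥ eK n r 1 = cK n r u := by
      simp [dotProduct, eK, cK_apply]
    have e2 : eV r 0 a ⬝ᵥ w = a ⬝ᵥ cV r 0 w := by
      simp [dotProduct, eV, cV_apply, Fintype.sum_prod_type]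
    rw [e1, e2, smul_eq_mul, smul_eq_mul, mul_comm]
  have h2 : ((my r a)ᵀ *ᵥ u - cK n r u • eV r 0 a) = 0 := by
    apply dotProduct_eq_zero
    intro w
    rw [sub_dotProduct, h, sub_self]
  exact sub_eq_zero.1 h2

lemma mJ_transpose_eK : (mJ n r)ᵀ *ᵥ eK n r 1 = 0 := by
  apply dotProduct_eq_zero
  intro w
  rw [tr_dot, mJ_mulVec, Jl_apply]
  simp [dotProduct, eK, eV]

end

end Pool.Agent.Work.MP_3d4872_al
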