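import Pool.Agent.Work.MP_3d4872_al.General

/-!
# MP_3d4872_al: compatible brackets given by operators with a commuting image

If `R` satisfies `[R X, R Y] = 0`, `R [R X, Y] = 0`, `R (R X) = 0`, then the bracket of `R` is
compatible. If moreover the traces of `R ∘ ad Z` vanish, then the bracket determines `R`.
-/

set_option autoImplicit false

namespace Pool.Agent.Work.MP_3d4872_al

section

variable {L : Type*} [LieRing L] [LieAlgebra ℂ L]

/-- The operator `R` has commuting image, kills the brackets with its image, and has square zero. -/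
structure SqZero (R : L →ₗ[ℂ] L) : Prop where
  comm : ∀ X Y, ⁅R X, R Y⁆ = 0
  lie : ∀ X Y, R ⁅R X, Y⁆ = 0
  sq : ∀ X, R (R X) = 0

/-- The bracket of such an operator is compatible. -/
theorem SqZero.compatible {R : L →ₗ[ℂ] L} (h : SqZero R) : Compatible (opBracket R) := by
  obtain ⟨h1, h2, h3⟩ := h
  have h2' : ∀ X Y : L, R ⁅X, R Y⁆ = 0 := by
    intro X Y
    rw [← lie_skew, map_neg, h2, neg_zero]
  have key : ∀ c : ℂ, IsLieBr (ownBracket L + c • opBracket R) := by
    intro c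
    refine isLieBr_of_conj _ (LinearMap.id + c • R) (LinearMap.id - c • R) (fun X => ?_)
      (fun X Y => ?_)
    · simp only [LinearMap.add_apply, LinearMap.sub_apply, LinearMap.id_apply, LinearMap.smul_apply,
        map_sub, map_smul, h3, smul_zero]
      module
    · simp only [LinearMap.add_apply, LinearMap.sub_apply,
        LinearMap.id_apply, LinearMap.smul_apply, ownBracket_apply, opBracket_apply, add_lie,
        lie_add, smul_lie,
        lie_smul, h1, smul_zero, add_zero, map_add, map_smul, h2, h2', smul_sub, smul_add]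
      module
  refine ⟨⟨fun X => ?_, fun X Y Z => ?_⟩, key⟩
  · rw [opBracket_apply, lie_self, map_zero, sub_zero, ← lie_skew, neg_add_cancel]
  · have k1 := (key 1).2 X Y Z
    have k2 := (key (-1)).2 X Y Z
    have k0 := lie_jacobi X Y Z
    rw [LinearMap.add_apply, LinearMap.add_apply, LinearMap.smul_apply] at k1
    simp only [LinearMap.add_apply, LinearMap.smul_apply, ownBracket_apply, one_smul, neg_smul,
      map_add, map_neg, LinearMap.neg_apply] at k1 k2
    set a := opBracket R X (opBracket R Y Z)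
    set b := opBracket R Y (opBracket R Z X)
    set c := opBracket R Z (opBracket R X Y)
    have : (2 : ℂ) • (a + b + c) = 0 := by
      linear_combination (norm := module) k1 + k2 - (2 : ℂ) • k0
    exact (smul_eq_zero.mp this).resolve_left two_ne_zero

/-- The operator `φ⁻¹ R φ`. -/
noncomputable def conjOp (R : L →ₗ[ℂ] L) (φ : L ≃ₗ⁅ℂ⁆ L) : L →ₗ[ℂ] L :=
  (φ.symm : L →ₗ[ℂ] L) ∘ₗ R ∘ₗ (φ : L →ₗ[ℂ] L)

lemma conjOp_apply (R : L →ₗ[ℂ] L) (φ : L ≃ₗ⁅ℂ⁆ L) (X : L) :
    conjOp R φ X = φ.symm (R (φ X)) := rfl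

lemma trace_conjOp (R : L →ₗ[ℂ] L) (φ : L ≃ₗ⁅ℂ⁆ L) (Z : L) :
    LinearMap.trace ℂ L (conjOp R φ ∘ₗ LieAlgebra.ad ℂ L Z)
      = LinearMap.trace ℂ L (R ∘ₗ LieAlgebra.ad ℂ L (φ Z)) := by
  have e : conjOp R φ ∘ₗ (LieAlgebra.ad ℂ L Z : L →ₗ[ℂ] L)
      = (φ.toLinearEquiv.symm : L →ₗ[ℂ] L) ∘ₗ (R ∘ₗ (LieAlgebra.ad ℂ L (φ Z) : L →ₗ[ℂ] L)) ∘ₗ
        (φ.toLinearEquiv : L →ₗ[ℂ] L) := by
    apply LinearMap.ext
    intro X
    change φ.symm (R (φ ⁅Z, X⁆)) = φ.symm (R ⁅φ Z, φ X⁆)
    rw [LieEquiv.map_lie]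
  rw [e, ← LinearMap.comp_assoc]
  have h := LinearMap.trace_conj' (R ∘ₗ (LieAlgebra.ad ℂ L (φ Z) : L →ₗ[ℂ] L))
    φ.toLinearEquiv.symm
  rw [LinearEquiv.conj_apply] at h
  exact h

/-- Conjugate operators have equivalent brackets. -/
theorem equivalent_of_conj {R R' : L →ₗ[ℂ] L} (φ : L ≃ₗ⁅ℂ⁆ L)
    (h : ∀ X, φ (R X) = R' (φ X)) : Equivalent (opBracket R) (opBracket R') := by
  refine ⟨φ.symm, fun X Y => ?_⟩
  have h' : ∀ X, R' X = φ (R (φ.symm X)) := by
    intro X
    rw [h, LieEquiv.apply_symm_apply]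
  change opBracket R' X Y = φ (opBracket R (φ.symm X) (φ.symm Y))
  simp only [opBracket_apply, map_sub, map_add, LieEquiv.map_lie, LieEquiv.apply_symm_apply, h']

variable [LieAlgebra.IsKilling ℂ L]

/-- Equivalence of the brackets of two operators with vanishing traces. -/
theorem conjOp_eq {R R' : L →ₗ[ℂ] L}
    (hR : ∀ Z, LinearMap.trace ℂ L (R ∘ₗ LieAlgebra.ad ℂ L Z) = 0)
    (hR' : ∀ Z, LinearMap.trace ℂ L (R' ∘ₗ LieAlgebra.ad ℂ L Z) = 0) (φ : L ≃ₗ⁅ℂ⁆ L)
    (h : ∀ X Y, opBracket R' X Y = φ.symm (opBracket R (φ X) (φ Y))) (X : L) :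
    φ.symm (R (φ X)) = R' X := by
  set D := conjOp R φ - R' with hDdef
  have hD : ∀ X Y, D ⁅X, Y⁆ = ⁅D X, Y⁆ + ⁅X, D Y⁆ := by
    intro X Y
    have := h X Y
    simp only [opBracket_apply, map_sub, map_add, LieEquiv.map_lie,
      LieEquiv.symm_apply_apply] at this
    rw [← LieEquiv.map_lie] at this
    simp only [hDdef, LinearMap.sub_apply, sub_lie, lie_sub, conjOp_apply]
    linear_combination (norm := module) this
  have hD0 : D X = 0 := by
    apply eq_zero_of_killing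
    intro Y
    rw [killing_derivation D hD, hDdef, LinearMap.sub_comp, map_sub, trace_conjOp, hR, hR',
      sub_zero]
  rw [hDdef, LinearMap.sub_apply, sub_eq_zero] at hD0
  exact hD0

end

end Pool.Agent.Work.MP_3d4872_al
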