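import Pool.Agent.Work.MP_3d4872_al.Final
import Pool.Agent.Work.MP_3d4872_al.Un.Gen

/-!
# MP_3d4872_al: more on frames
-/

set_option autoImplicit false
set_option linter.unusedSectionVars false

namespace Pool.Agent.Work.MP_3d4872_al

open Matrix LieAlgebra LieAlgebra.SpecialLinear LieAlgebra.Orthogonal LieAlgebra.Symplectic

section Aff

variable {L : Type*} [LieRing L] [LieAlgebra ℂ L] {ι : Type*} [Fintype ι] [DecidableEq ι]

/-- The element `bx x₀` is `bx 0 + ey x₀`. -/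
def Frame.Aff (F : Frame L ι) : Prop := ∀ x₀, F.bx x₀ = F.bx 0 + F.ey x₀

lemma Frame.Aff.transport {L' : Type*} [LieRing L'] [LieAlgebra ℂ L'] {F : Frame L ι}
    (h : F.Aff) (e : L ≃ₗ⁅ℂ⁆ L') : (F.transport e).Aff := by
  intro x₀
  change e (F.bx x₀) = e (F.bx 0) + e (F.ey x₀)
  rw [h x₀, map_add]

lemma Frame.Aff.prod [FiniteDimensional ℂ L] {F : Frame L ι}
    (h : F.Aff) (H : Type*) [LieRing H] [LieAlgebra ℂ H] [FiniteDimensional ℂ H] :
    (F.prod H).Aff := by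
  intro x₀
  change (F.bx x₀, (0 : H)) = (F.bx 0, 0) + (F.ey x₀, 0)
  rw [h x₀, Prod.mk_add_mk, add_zero]

end Aff

section Types

lemma frameA_aff (ι : Type*) [Fintype ι] [DecidableEq ι] [Nonempty ι] : (frameA ι).Aff := by
  intro x₀
  change bigX x₀ = bigX 0 + emb x₀
  rw [bigX, bigX, ← map_add]
  congr 1
  rw [zero_add, add_comm]

lemma frameBCD_aff {κ : Type*} [Fintype κ] [DecidableEq κ]
    (ι : Type*) [Fintype ι] [DecidableEq ι] [Nonempty ι]
    {G G' : Matrix κ κ ℂ} {ε : ℂ} (hG : G * G' = 1) (hG' : G' * G = 1)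
    (hGs : Gᵀ = ε • G) (hε : ε * ε = 1) : (frameBCD ι hG hG' hGs hε).Aff := by
  intro x₀
  change emb2 G ε (hatX x₀) = emb2 G ε (hatX 0) + emb2 G ε (hatY x₀)
  rw [← map_add]
  congr 1
  rw [hatX, hatX, hatY_apply, bordered_add]
  congr 1
  · rw [zero_add, add_comm]
  · simp
  · simp
  · simp

lemma exists_uframe_sl {ι : Type} [Fintype ι] [DecidableEq ι] [Nonempty ι] {N : ℕ}
    (h : Fintype.card ι + 1 = N) : ∃ F : Frame (sl (Fin N) ℂ) ι, F.Aff :=
  ⟨(frameA ι).transport (reindexSl (Fintype.equivFinOfCardEq (by simp [h]))),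
    (frameA_aff ι).transport _⟩

lemma exists_uframe_so {ι : Type} [Fintype ι] [DecidableEq ι] [Nonempty ι] {N : ℕ}
    (h : Fintype.card ι + 1 = N / 2) : ∃ F : Frame (so (Fin N) ℂ) ι, F.Aff := by
  by_cases h2 : N % 2 = 0
  · refine ⟨(frameD ι).transport (dToSo _ (by simp; omega)), Frame.Aff.transport ?_ _⟩
    exact (frameBCD_aff ι _ _ _ _).transport _
  · refine ⟨(frameB ι).transport (bToSo _ (by simp; omega)), Frame.Aff.transport ?_ _⟩
    exact (frameBCD_aff ι _ _ _ _).transport _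

lemma exists_uframe_sp {ι : Type} [Fintype ι] [DecidableEq ι] [Nonempty ι] {n : ℕ}
    (h : Fintype.card ι + 1 = n) : ∃ F : Frame (sp (Fin n) ℂ) ι, F.Aff := by
  refine ⟨(frameC ι).transport (spReindex _ (by simp [h])), Frame.Aff.transport ?_ _⟩
  exact (frameBCD_aff ι _ _ _ _).transport _

end Types

section Lemmas

variable {L : Type*} [LieRing L] [LieAlgebra ℂ L] {ι : Type*} [Fintype ι] [DecidableEq ι]
  {F : Frame L ι}

lemma Frame.lie_bx_ey (F : Frame L ι) {A B : Matrix ι ι ℂ} (h : A * B = B * A) :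
    ⁅F.bx A, F.ey B⁆ = 0 := F.comm A B h

lemma Frame.lie_ey_bx (F : Frame L ι) {A B : Matrix ι ι ℂ} (h : A * B = B * A) :
    ⁅F.ey A, F.bx B⁆ = 0 := by
  rw [← lie_skew, F.comm B A h.symm, neg_zero]

lemma Frame.Aff.lie_ey_ey (hF : F.Aff) {A B : Matrix ι ι ℂ} (h : A * B = B * A) :
    ⁅F.ey A, F.ey B⁆ = 0 := by
  have h1 := F.comm A B h
  have h2 := F.comm 0 B (by rw [zero_mul, mul_zero])
  rw [hF A, add_lie, h2, zero_add] at h1
  exact h1

lemma Frame.Aff.kill_bx_ey (hF : F.Aff) {A B : Matrix ι ι ℂ} (hB : IsNilpotent B) :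
    killingForm ℂ L (F.bx A) (F.ey B) = killingForm ℂ L (F.ey A) (F.ey B) := by
  have h2 := F.kill_xy 0 B IsNilpotent.zero hB (by rw [zero_mul, mul_zero])
  rw [hF A, map_add, LinearMap.add_apply, h2, zero_add]

lemma Frame.Aff.kill_ey_ey (hF : F.Aff) {A B : Matrix ι ι ℂ} (hA : IsNilpotent A)
    (hB : IsNilpotent B) (h : A * B = B * A) :
    killingForm ℂ L (F.ey A) (F.ey B) = 0 := by
  rw [← hF.kill_bx_ey hB, F.kill_xy A B hA hB h]

lemma Frame.Aff.kill_pol (hF : F.Aff) {A B : Matrix ι ι ℂ} (hA : IsNilpotent A)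
    (hB : IsNilpotent B) (hAB : IsNilpotent (A + B)) :
    killingForm ℂ L (F.ey A) (F.ey B) = 0 := by
  have h1 := hF.kill_ey_ey hA hA rfl
  have h2 := hF.kill_ey_ey hB hB rfl
  have h3 := hF.kill_ey_ey hAB hAB rfl
  have h4 : killingForm ℂ L (F.ey B) (F.ey A) = killingForm ℂ L (F.ey A) (F.ey B) :=
    LieModule.traceForm_comm ℂ L L _ _
  rw [map_add, map_add, map_add, LinearMap.add_apply, LinearMap.add_apply, h1, h2, h4] at h3
  have h5 : (2 : ℂ) * killingForm ℂ L (F.ey A) (F.ey B) = 0 := by linear_combination h3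
  exact (mul_eq_zero.1 h5).resolve_left two_ne_zero

/-- An automorphism which maps `bx x₁` to `bx x₀` maps columns to columns. -/
theorem Frame.recover_col (F : Frame L ι) {x₀ x₁ : Matrix ι ι ℂ} (hx₀ : IsNilpotent x₀)
    (hx₁ : IsNilpotent x₁) (φ : L ≃ₗ⁅ℂ⁆ L) (h1 : φ (F.bx x₁) = F.bx x₀) :
    ∃ g : (ι → ℂ) →ₗ[ℂ] (ι → ℂ), Function.Injective g ∧ ∀ v, φ (F.col v) = F.col (g v) := by
  obtain ⟨K, hK⟩ := nilpotent_toLin x₁ hx₁
  have hgen : ∀ v, ((LieAlgebra.ad ℂ L (F.bx x₀) - F.c • 1 : Module.End ℂ L) ^ K)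
      (φ (F.col v)) = 0 := by
    intro v
    have e1 : ∀ u, (φ : L →ₗ[ℂ] L)
        ((LieAlgebra.ad ℂ L (F.bx x₁) - F.c • 1 : Module.End ℂ L) u)
        = (LieAlgebra.ad ℂ L (F.bx x₀) - F.c • 1 : Module.End ℂ L)
          ((φ : L →ₗ[ℂ] L) u) := by
      intro u
      change φ (⁅F.bx x₁, u⁆ - F.c • u) = ⁅F.bx x₀, φ u⁆ - F.c • φ u
      rw [map_sub, map_smul, LieEquiv.map_lie, h1]
    have e2 := pow_intertwine (φ : L →ₗ[ℂ] L) _ _ e1 K (F.col v)
    have e3 : ∀ u : ι → ℂ, F.col ((Matrix.toLin' x₁) u)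
        = (LieAlgebra.ad ℂ L (F.bx x₁) - F.c • 1 : Module.End ℂ L) (F.col u) := by
      intro u
      rw [LinearMap.sub_apply, LieAlgebra.ad_apply, F.bx_col x₁ hx₁, Matrix.toLin'_apply,
        LinearMap.smul_apply, Module.End.one_apply, add_sub_cancel_right]
    have e4 := pow_intertwine F.col (Matrix.toLin' x₁) _ e3 K v
    rw [hK, LinearMap.zero_apply, map_zero] at e4
    rw [← e4, map_zero] at e2
    exact e2.symm
  have hw : ∀ v, φ (F.col v) = F.col (F.colp (φ (F.col v))) := fun v =>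
    F.gen_col x₀ hx₀ K _ (hgen v)
  have hcinj : Function.Injective F.col := Function.LeftInverse.injective (g := F.colp) F.colp_col
  refine ⟨F.colp ∘ₗ (φ : L →ₗ[ℂ] L) ∘ₗ F.col, ?_, hw⟩
  intro u v huv
  have huv' : F.colp (φ (F.col u)) = F.colp (φ (F.col v)) := huv
  apply hcinj
  have hφinj : Function.Injective φ := φ.injective
  apply hφinj
  rw [hw u, hw v, huv']

/-- An automorphism which maps `bx x₁` to `-bx x₀` maps columns to rows. -/
theorem Frame.recover_row (F : Frame L ι) {x₀ x₁ : Matrix ι ι ℂ} (hx₀ : IsNilpotent x₀)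
    (hx₁ : IsNilpotent x₁) (φ : L ≃ₗ⁅ℂ⁆ L) (h1 : φ (F.bx x₁) = -F.bx x₀) :
    ∃ g : (ι → ℂ) →ₗ[ℂ] (ι → ℂ), Function.Injective g ∧ ∀ v, φ (F.col v) = F.row (g v) := by
  obtain ⟨K, hK⟩ := nilpotent_toLin x₁ hx₁
  have hgen : ∀ v, ((-LieAlgebra.ad ℂ L (F.bx x₀) - F.c • 1 : Module.End ℂ L) ^ K)
      (φ (F.col v)) = 0 := by
    intro v
    have e1 : ∀ u, (φ : L →ₗ[ℂ] L)
        ((LieAlgebra.ad ℂ L (F.bx x₁) - F.c • 1 : Module.End ℂ L) u)
        = (-LieAlgebra.ad ℂ L (F.bx x₀) - F.c • 1 : Module.End ℂ L)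
          ((φ : L →ₗ[ℂ] L) u) := by
      intro u
      change φ (⁅F.bx x₁, u⁆ - F.c • u) = -⁅F.bx x₀, φ u⁆ - F.c • φ u
      rw [map_sub, map_smul, LieEquiv.map_lie, h1, neg_lie]
    have e2 := pow_intertwine (φ : L →ₗ[ℂ] L) _ _ e1 K (F.col v)
    have e3 : ∀ u : ι → ℂ, F.col ((Matrix.toLin' x₁) u)
        = (LieAlgebra.ad ℂ L (F.bx x₁) - F.c • 1 : Module.End ℂ L) (F.col u) := by
      intro u
      rw [LinearMap.sub_apply, LieAlgebra.ad_apply, F.bx_col x₁ hx₁, Matrix.toLin'_apply,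
        LinearMap.smul_apply, Module.End.one_apply, add_sub_cancel_right]
    have e4 := pow_intertwine F.col (Matrix.toLin' x₁) _ e3 K v
    rw [hK, LinearMap.zero_apply, map_zero] at e4
    rw [← e4, map_zero] at e2
    exact e2.symm
  have hw : ∀ v, φ (F.col v) = F.row (F.rowp (φ (F.col v))) := fun v =>
    F.gen_row x₀ hx₀ K _ (hgen v)
  have hcinj : Function.Injective F.col := Function.LeftInverse.injective (g := F.colp) F.colp_col
  refine ⟨F.rowp ∘ₗ (φ : L →ₗ[ℂ] L) ∘ₗ F.col, ?_, hw⟩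
  intro u v huv
  have huv' : F.rowp (φ (F.col u)) = F.rowp (φ (F.col v)) := huv
  apply hcinj
  have hφinj : Function.Injective φ := φ.injective
  apply hφinj
  rw [hw u, hw v, huv']

lemma Frame.col_inj (F : Frame L ι) {u v : ι → ℂ} (h : F.col u = F.col v) : u = v := by
  have := congrArg F.colp h
  rwa [F.colp_col, F.colp_col] at this

lemma Frame.row_inj (F : Frame L ι) {u v : ι → ℂ} (h : F.row u = F.row v) : u = v := by
  have := congrArg F.rowp h
  rwa [F.rowp_row, F.rowp_row] at this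

end Lemmas

end Pool.Agent.Work.MP_3d4872_al
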