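import Pool.Agent.Work.MP_3d4872_al.Un.Op

/-!
# MP_3d4872_al: equivalent brackets come from isomorphic multiplications
-/

set_option autoImplicit false
set_option linter.unusedSectionVars false

namespace Pool.Agent.Work.MP_3d4872_al

open Matrix LieAlgebra

variable {L : Type*} [LieRing L] [LieAlgebra ℂ L] {n r : ℕ} {F : Frame L (UIx n r)}

lemma surj_of_inj {G : (UIx n r → ℂ) →ₗ[ℂ] (UIx n r → ℂ)} (hG : Function.Injective G) :
    Function.Surjective G := LinearMap.surjective_of_injective hG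

lemma mM_zero_of {μ : Alg n} {f : Fin n → ℂ} (h : ∀ w, mM r μ f *ᵥ w = 0) (u : Fin n → ℂ) :
    μ u f = 0 := by
  have h1 := h (eV r 0 u)
  rw [mM_mulVec, Ml_apply] at h1
  have h2 := eV_inj h1
  simpa using h2

variable [LieAlgebra.IsKilling ℂ L] [FiniteDimensional ℂ L]

/-- The functionals `X ↦ a(f_X)` and `X ↦ b(f_{φX})` agree only if the elements agree. -/
lemma Frame.func_eq (F : Frame L (UIx n r)) (φ : L ≃ₗ⁅ℂ⁆ L) (a b : (Fin n → ℂ) →ₗ[ℂ] ℂ)
    (h : ∀ X, a (F.fY X) = b (F.fY (φ X))) :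
    φ (F.ey (my r (vecOf a))) = F.ey (my r (vecOf b)) := by
  rw [← sub_eq_zero]
  apply eq_zero_of_killing
  intro Y
  have h1 := LieAlgebra.killingForm_of_equiv_apply φ (F.ey (my r (vecOf a))) (φ.symm Y)
  rw [LieEquiv.apply_symm_apply, ← F.dot_fY, vecOf_dot, h, LieEquiv.apply_symm_apply] at h1
  rw [map_sub, LinearMap.sub_apply, h1, ← F.dot_fY, vecOf_dot, sub_self]

/-- The column case. -/
lemma Frame.Aff.case_col (hF : F.Aff) {μ ν : Alg n} (φ : L ≃ₗ⁅ℂ⁆ L) (f₀ : Fin n → ℂ)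
    (hb : φ (F.bx 0) = F.bx 0 + F.ey (mM r μ f₀))
    (hJ : φ (F.ey (mJ n r)) = F.ey (mJ n r))
    (hM : ∀ X, φ (F.ey (mM r ν (F.fY X))) +
      killingForm ℂ L (F.ey (mJ n r)) X • F.ey (mM r μ f₀) = F.ey (mM r μ (F.fY (φ X)))) :
    AlgIso μ ν := by
  have hb' : φ (F.bx 0) = F.bx (mM r μ f₀) := by rw [hb, ← hF]
  obtain ⟨G, hGi, hG⟩ := F.recover_col (mM_nil μ f₀) IsNilpotent.zero φ hb'
  have hGs := surj_of_inj hGi
  -- action of `ey`
  have act : ∀ (A B : Matrix (UIx n r) (UIx n r) ℂ), IsNilpotent A → IsNilpotent B →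
      φ (F.ey A) = F.ey B → ∀ v, G (A *ᵥ v) = B *ᵥ G v := by
    intro A B hA hB h v
    apply F.col_inj
    rw [← hG, ← F.ey_col A hA, LieEquiv.map_lie, h, hG, F.ey_col B hB]
  -- `f₀`
  have hZ : ∀ w, mM r μ f₀ *ᵥ w = 0 := by
    intro w
    obtain ⟨v, rfl⟩ := hGs w
    have h1 : φ ⁅F.bx 0, F.col v⁆ = ⁅F.bx (mM r μ f₀), F.col (G v)⁆ := by
      rw [LieEquiv.map_lie, hb', hG]
    rw [F.bx_col 0 IsNilpotent.zero, F.bx_col _ (mM_nil μ f₀), Matrix.zero_mulVec, map_zero,
      zero_add, map_smul, hG] at h1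
    have h2 : F.col (mM r μ f₀ *ᵥ G v) = 0 := by
      have := h1
      rw [eq_comm, add_eq_right] at this
      exact this
    exact F.col_inj (h2.trans (map_zero F.col).symm)
  have hZ0 : mM r μ f₀ = 0 := mat_ext fun w => by rw [hZ, Matrix.zero_mulVec]
  have hM' : ∀ X, φ (F.ey (mM r ν (F.fY X))) = F.ey (mM r μ (F.fY (φ X))) := by
    intro X
    have := hM X
    rwa [hZ0, map_zero, smul_zero, add_zero] at this
  have hGJ : ∀ v, G (Jl n r v) = Jl n r (G v) := by
    intro v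
    have := act _ _ mJ_nil mJ_nil hJ v
    rwa [mJ_mulVec, mJ_mulVec] at this
  have hGM : ∀ X v, G (Ml r ν (F.fY X) v) = Ml r μ (F.fY (φ X)) (G v) := by
    intro X v
    have := act _ _ (mM_nil _ _) (mM_nil _ _) (hM' X) v
    rwa [mM_mulVec, mM_mulVec] at this
  -- the identity in the tensor square
  have key : ∀ (i : UIx n r) (v w : UIx n r → ℂ),
      (G (Ml r ν (cV r 0 w) v)) i • G (eK n r 1) =
        (Ml r μ (cV r 0 (G w)) (G v)) i • eK n r 1 := by
    intro i v w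
    set a : (Fin n → ℂ) →ₗ[ℂ] ℂ := LinearMap.proj i ∘ₗ G ∘ₗ eV r 1 ∘ₗ ν (cV r 0 v) with ha
    set b : (Fin n → ℂ) →ₗ[ℂ] ℂ := LinearMap.proj i ∘ₗ eV r 1 ∘ₗ μ (cV r 0 (G v)) with hb
    have hab : φ (F.ey (my r (vecOf a))) = F.ey (my r (vecOf b)) := by
      apply F.func_eq
      intro X
      exact congrFun (hGM X v) i
    have h1 := act _ _ (my_nil _) (my_nil _) hab w
    rw [my_mulVec, my_mulVec, yl_apply, yl_apply, map_smul, vecOf_dot, vecOf_dot] at h1
    exact h1
  set γ : (Fin n → ℂ) →ₗ[ℂ] (Fin n → ℂ) := cV r 0 ∘ₗ G ∘ₗ eV r 0 with hγ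
  have hG1 : ∀ u, G (eV r 1 u) = eV r 1 (γ u) := by
    intro u
    have e : eV r 1 u = Jl n r (eV r 0 u) := by simp [Jl_apply]
    rw [e, hGJ]
    rfl
  have hγi : Function.Injective γ := by
    rw [injective_iff_map_eq_zero]
    intro u hu
    have e : G (eV r 1 u) = 0 := by rw [hG1, hu, map_zero]
    exact eV_inj (hGi (e.trans (map_zero G).symm))
  have key2 : ∀ (s : Fin n) (u u' : Fin n → ℂ),
      (γ (ν u u')) s • G (eK n r 1) = (μ (γ u) (γ u')) s • eK n r 1 := by
    intro s u u'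
    have h := key (Sum.inl (1, s)) (eV r 0 u) (eV r 0 u')
    have e1 : (G (Ml r ν (cV r 0 (eV r 0 u')) (eV r 0 u))) (Sum.inl (1, s)) = (γ (ν u u')) s := by
      rw [Ml_apply, cV_eV, cV_eV, if_pos rfl, if_pos rfl, hG1]
      simp [eV]
    have e2 : (Ml r μ (cV r 0 (G (eV r 0 u'))) (G (eV r 0 u))) (Sum.inl (1, s))
        = (μ (γ u) (γ u')) s := by
      rw [Ml_apply]
      simp [eV, hγ]
    rw [e1, e2] at h
    exact h
  set lam := cK n r (G (eK n r 1)) with hlam
  have key3 : ∀ u u', lam • γ (ν u u') = μ (γ u) (γ u') := by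
    intro u u'
    ext s
    have h := congrArg (cK n r) (key2 s u u')
    rw [map_smul, map_smul, cK_eK, smul_eq_mul, smul_eq_mul, mul_one] at h
    rw [Pi.smul_apply, smul_eq_mul, mul_comm]
    exact h
  have hγs : Function.Surjective γ := LinearMap.surjective_of_injective hγi
  by_cases hl : lam = 0
  · have hμ : μ = 0 := by
      apply LinearMap.ext
      intro u
      apply LinearMap.ext
      intro u'
      obtain ⟨x, rfl⟩ := hγs u
      obtain ⟨y, rfl⟩ := hγs u'
      rw [← key3, hl, zero_smul]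
      rfl
    have hν : ν = 0 := by
      apply LinearMap.ext
      intro u
      apply LinearMap.ext
      intro u'
      apply hγi
      rw [LinearMap.zero_apply, LinearMap.zero_apply, map_zero]
      ext s
      have h := key2 s u u'
      rw [hμ] at h
      simp only [LinearMap.zero_apply, Pi.zero_apply, zero_smul] at h
      have hG0 : G (eK n r 1) ≠ 0 := fun h' => eK_ne (hGi (h'.trans (map_zero G).symm))
      exact (smul_eq_zero.1 h).resolve_right hG0
    exact AlgIso.refl' (hμ.trans hν.symm)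
  · apply AlgIso.symm
    have hinj : Function.Injective (lam⁻¹ • γ) := by
      intro x y hxy
      apply hγi
      have : lam⁻¹ • γ x = lam⁻¹ • γ y := hxy
      exact smul_right_injective _ (inv_ne_zero hl) this
    refine ⟨LinearEquiv.ofInjectiveEndo (lam⁻¹ • γ) hinj, fun u v => ?_⟩
    change lam⁻¹ • γ (ν u v) = μ (lam⁻¹ • γ u) (lam⁻¹ • γ v)
    rw [map_smul, map_smul, LinearMap.smul_apply, ← key3, smul_smul lam⁻¹ lam, inv_mul_cancel₀ hl,
      one_smul]

/-- The row case. -/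
lemma Frame.Aff.case_row (hF : F.Aff) {μ ν : Alg n} (φ : L ≃ₗ⁅ℂ⁆ L) (f₀ : Fin n → ℂ)
    (hb : φ (F.bx 0) = (-1 : ℂ) • F.bx 0 + F.ey (mM r μ f₀))
    (hJ : φ (F.ey (mJ n r)) = (-1 : ℂ) • F.ey (mJ n r))
    (hM : ∀ X, φ (F.ey (mM r ν (F.fY X))) +
      killingForm ℂ L (F.ey (mJ n r)) X • F.ey (mM r μ f₀) = F.ey (mM r μ (F.fY (φ X)))) :
    AlgIso μ ν := by
  have hb' : φ (F.bx 0) = -F.bx (-(mM r μ f₀)) := by
    rw [hb, hF (-(mM r μ f₀)), map_neg]
    module
  have hnil : IsNilpotent (-(mM r μ f₀)) := (mM_nil μ f₀).neg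
  obtain ⟨G, hGi, hG⟩ := F.recover_row hnil IsNilpotent.zero φ hb'
  have hGs := surj_of_inj hGi
  -- action of `ey`
  have act : ∀ (A B : Matrix (UIx n r) (UIx n r) ℂ), IsNilpotent A → IsNilpotent B →
      φ (F.ey A) = F.ey B → ∀ v, G (A *ᵥ v) = -(Bᵀ *ᵥ G v) := by
    intro A B hA hB h v
    apply F.row_inj
    rw [← hG, ← F.ey_col A hA, LieEquiv.map_lie, h, hG, F.ey_row B hB, map_neg]
  -- `f₀`
  have hZ : ∀ w, (mM r μ f₀)ᵀ *ᵥ w = 0 := by
    intro w
    obtain ⟨v, rfl⟩ := hGs w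
    have h1 : φ ⁅F.bx 0, F.col v⁆ = ⁅-F.bx (-(mM r μ f₀)), F.row (G v)⁆ := by
      rw [LieEquiv.map_lie, hb', hG]
    rw [F.bx_col 0 IsNilpotent.zero, neg_lie, F.bx_row _ hnil, Matrix.zero_mulVec, map_zero,
      zero_add, map_smul, hG, neg_neg, Matrix.transpose_neg, Matrix.neg_mulVec, map_neg] at h1
    have h2 : -F.row ((mM r μ f₀)ᵀ *ᵥ G v) = 0 := by
      have := h1
      rw [eq_comm, add_eq_right] at this
      exact this
    exact F.row_inj ((neg_eq_zero.1 h2).trans (map_zero F.row).symm)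
  have hZ0 : mM r μ f₀ = 0 := by
    have h1 : (mM r μ f₀)ᵀ = 0 := mat_ext fun w => by rw [hZ, Matrix.zero_mulVec]
    rw [← Matrix.transpose_transpose (mM r μ f₀), h1, Matrix.transpose_zero]
  have hM' : ∀ X, φ (F.ey (mM r ν (F.fY X))) = F.ey (mM r μ (F.fY (φ X))) := by
    intro X
    have := hM X
    rwa [hZ0, map_zero, smul_zero, add_zero] at this
  have hGJ : ∀ v, G (Jl n r v) = (mJ n r)ᵀ *ᵥ (G v) := by
    intro v
    have h1 : φ (F.ey (mJ n r)) = F.ey (-mJ n r) := by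
      rw [hJ, map_neg, neg_smul, one_smul]
    have := act _ _ mJ_nil mJ_nil.neg h1 v
    rwa [mJ_mulVec, Matrix.transpose_neg, Matrix.neg_mulVec, neg_neg] at this
  have hGM : ∀ X v, G (Ml r ν (F.fY X) v) = -((mM r μ (F.fY (φ X)))ᵀ *ᵥ (G v)) := by
    intro X v
    have := act _ _ (mM_nil _ _) (mM_nil _ _) (hM' X) v
    rwa [mM_mulVec] at this
  have key : ∀ (i : UIx n r) (v : UIx n r → ℂ) (a b : (Fin n → ℂ) →ₗ[ℂ] ℂ),
      (∀ f, a f = (G (Ml r ν f v)) i) → (∀ f, b f = (-((mM r μ f)ᵀ *ᵥ (G v))) i) →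
      ∀ w, a (cV r 0 w) • G (eK n r 1) = -(cK n r (G w) • eV r 0 (vecOf b)) := by
    intro i v a b ha hb w
    have hab : φ (F.ey (my r (vecOf a))) = F.ey (my r (vecOf b)) := by
      apply F.func_eq
      intro X
      rw [ha, hb]
      exact congrFun (hGM X v) i
    have h1 := act _ _ (my_nil _) (my_nil _) hab w
    rw [my_mulVec, yl_apply, map_smul, vecOf_dot, my_transpose] at h1
    exact h1
  -- `b` as a linear map
  have hbl : ∀ (i : UIx n r) (v : UIx n r → ℂ), ∃ b : (Fin n → ℂ) →ₗ[ℂ] ℂ,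
      ∀ f, b f = (-((mM r μ f)ᵀ *ᵥ (G v))) i := by
    intro i v
    refine ⟨{ toFun := fun f => (-((mM r μ f)ᵀ *ᵥ (G v))) i
              map_add' := fun f g => ?_
              map_smul' := fun c f => ?_ }, fun f => rfl⟩
    · rw [← mMl_apply, map_add, Matrix.transpose_add, Matrix.add_mulVec, neg_add, Pi.add_apply]
      rfl
    · rw [← mMl_apply, map_smul, Matrix.transpose_smul, Matrix.smul_mulVec, ← smul_neg,
        Pi.smul_apply, RingHom.id_apply]
      rfl
  obtain ⟨w₀, hw₀⟩ := hGs (eK n r 1)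
  have hw0 : cV r 0 w₀ = 0 := by
    have h1 := hGJ w₀
    rw [hw₀, mJ_transpose_eK] at h1
    have h2 := hGi (h1.trans (map_zero G).symm)
    exact eV_inj h2
  have hμ : μ = 0 := by
    apply LinearMap.ext
    intro u
    apply LinearMap.ext
    intro f
    have hT : (mM r μ f)ᵀ = 0 := by
      apply mat_ext
      intro w
      obtain ⟨v, rfl⟩ := hGs w
      rw [Matrix.zero_mulVec]
      ext i
      obtain ⟨b, hb⟩ := hbl i v
      have h1 := key i v (LinearMap.proj i ∘ₗ G ∘ₗ eV r 1 ∘ₗ ν (cV r 0 v)) b (fun f => rfl) hb w₀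
      rw [hw0, map_zero, zero_smul, hw₀, cK_eK, one_smul] at h1
      have h2 : vecOf b = 0 := eV_inj (neg_eq_zero.1 h1.symm)
      have h3 := hb f
      rw [← vecOf_dot, h2, zero_dotProduct] at h3
      rw [Pi.zero_apply]
      have h4 : ((mM r μ f)ᵀ *ᵥ (G v)) i = -((-((mM r μ f)ᵀ *ᵥ (G v))) i) := by simp
      rw [h4, ← h3, neg_zero]
    have h0 : mM r μ f = 0 := by
      rw [← Matrix.transpose_transpose (mM r μ f), hT, Matrix.transpose_zero]
    exact mM_zero_of (r := r) (fun w => by rw [h0, Matrix.zero_mulVec]) u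
  have hν : ν = 0 := by
    apply LinearMap.ext
    intro u
    apply LinearMap.ext
    intro f
    have h0 : G (eV r 1 (ν u f)) = 0 := by
      ext i
      obtain ⟨b, hb⟩ := hbl i (eV r 0 u)
      have h1 := key i (eV r 0 u) (LinearMap.proj i ∘ₗ G ∘ₗ eV r 1 ∘ₗ ν (cV r 0 (eV r 0 u))) b
        (fun f => rfl) hb (eV r 0 f)
      have hb0 : vecOf b = 0 := by
        ext k
        have h2 : mM r μ (Pi.single k 1) = 0 := by
          apply mat_ext
          intro w
          rw [mM_mulVec, Ml_apply, hμ]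
          simp
        change b (Pi.single k 1) = 0
        rw [hb, h2]
        simp
      rw [hb0, map_zero, smul_zero, neg_zero] at h1
      have hG0 : G (eK n r 1) ≠ 0 := fun h' => eK_ne (hGi (h'.trans (map_zero G).symm))
      have h3 := (smul_eq_zero.1 h1).resolve_right hG0
      simpa using h3
    have := eV_inj (hGi (h0.trans (map_zero G).symm))
    simpa using this
  exact AlgIso.refl' (hμ.trans hν.symm)

/-- Equivalent brackets come from isomorphic multiplications. -/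
theorem Frame.Aff.algIso_of_equivalent (hF : F.Aff) {μ ν : Alg n}
    (h : Equivalent (opBracket (F.op μ)) (opBracket (F.op ν))) : AlgIso μ ν := by
  by_cases hn : n = 0
  · subst hn
    apply AlgIso.refl'
    apply LinearMap.ext
    intro u
    apply LinearMap.ext
    intro v
    exact Subsingleton.elim _ _
  · obtain ⟨φ, hφ⟩ := h
    have hc : ∀ X, F.op μ (φ X) = φ (F.op ν X) := by
      intro X
      rw [← conjOp_eq (hF.op_trace μ) (hF.op_trace ν) φ hφ X, LieEquiv.apply_symm_apply]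
    obtain ⟨α, f₀, hα, hb, hJ, hM⟩ := hF.first hn φ hc
    rcases mul_self_eq_one_iff.1 hα with h1 | h1
    · subst h1
      rw [one_smul] at hb hJ
      exact hF.case_col φ f₀ hb hJ hM
    · subst h1
      exact hF.case_row φ f₀ hb hJ hM

end Pool.Agent.Work.MP_3d4872_al
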