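import Pool.Agent.Work.MP_3d4872_al.Un.Pairs

/-!
# MP_3d4872_al: semisimple Lie algebras with a large classical ideal
-/

set_option autoImplicit false

namespace Pool.Agent.Work.MP_3d4872_al

open LieAlgebra LieAlgebra.SpecialLinear LieAlgebra.Orthogonal LieAlgebra.Symplectic

/-- `L` has an ideal isomorphic to `sl N` with `N ≥ k`, or to `so N` with `N ≥ 2 k`, or to
`sp (2 N)` with `N ≥ k`. -/
def HasClassicalIdeal (k : ℕ) (L : Type*) [LieRing L] [LieAlgebra ℂ L] : Prop :=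
  ∃ I : LieIdeal ℂ L,
    (∃ N : ℕ, k ≤ N ∧ Nonempty (I ≃ₗ⁅ℂ⁆ sl (Fin N) ℂ)) ∨
    (∃ N : ℕ, 2 * k ≤ N ∧ Nonempty (I ≃ₗ⁅ℂ⁆ so (Fin N) ℂ)) ∨
    (∃ N : ℕ, k ≤ N ∧ Nonempty (I ≃ₗ⁅ℂ⁆ sp (Fin N) ℂ))

theorem HasClassicalIdeal.containsAlgebras {n : ℕ} {L : Type*} [LieRing L] [LieAlgebra ℂ L]
    [FiniteDimensional ℂ L] [LieAlgebra.IsSemisimple ℂ L] (h : HasClassicalIdeal (2 * n + 2) L) :
    ContainsAlgebras n L := by
  obtain ⟨I, h⟩ := h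
  rcases h with ⟨N, hN, ⟨e⟩⟩ | ⟨N, hN, ⟨e⟩⟩ | ⟨N, hN, ⟨e⟩⟩
  · obtain ⟨r, F, hF⟩ := frame_sl hN
    exact containsAlgebras_of_ideal I (hF.transport e.symm)
  · obtain ⟨r, F, hF⟩ := frame_so (n := n) (N := N) (by omega)
    exact containsAlgebras_of_ideal I (hF.transport e.symm)
  · obtain ⟨r, F, hF⟩ := frame_sp hN
    exact containsAlgebras_of_ideal I (hF.transport e.symm)

theorem HasClassicalIdeal.mono {k k' : ℕ} (hk : k ≤ k') {L : Type*} [LieRing L] [LieAlgebra ℂ L]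
    (h : HasClassicalIdeal k' L) : HasClassicalIdeal k L := by
  obtain ⟨I, h⟩ := h
  refine ⟨I, ?_⟩
  rcases h with ⟨N, hN, h⟩ | ⟨N, hN, h⟩ | ⟨N, hN, h⟩
  · exact Or.inl ⟨N, by omega, h⟩
  · exact Or.inr (Or.inl ⟨N, by omega, h⟩)
  · exact Or.inr (Or.inr ⟨N, by omega, h⟩)

end Pool.Agent.Work.MP_3d4872_al
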