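import Pool.Agent.Work.MP_3d4872_al.Un.Fr
import Pool.Agent.Work.MP_3d4872_al.Un.Enc

/-!
# MP_3d4872_al: the operator attached to a multiplication
-/

set_option autoImplicit false
set_option linter.unusedSectionVars false

namespace Pool.Agent.Work.MP_3d4872_al

open Matrix LieAlgebra

/-- Isomorphism of two multiplications on `ℂ^n`. -/
def AlgIso {n : ℕ} (μ ν : (Fin n → ℂ) →ₗ[ℂ] (Fin n → ℂ) →ₗ[ℂ] (Fin n → ℂ)) : Prop :=
  ∃ g : (Fin n → ℂ) ≃ₗ[ℂ] (Fin n → ℂ), ∀ u v, g (μ u v) = ν (g u) (g v)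

lemma AlgIso.refl' {n : ℕ} {μ ν : Alg n} (h : μ = ν) : AlgIso μ ν := by
  subst h
  exact ⟨LinearEquiv.refl ℂ _, fun _ _ => rfl⟩

lemma AlgIso.symm {n : ℕ} {μ ν : Alg n} (h : AlgIso μ ν) : AlgIso ν μ := by
  obtain ⟨g, hg⟩ := h
  refine ⟨g.symm, fun u v => ?_⟩
  apply g.injective
  rw [hg, g.apply_symm_apply, g.apply_symm_apply, g.apply_symm_apply]

section Op

variable {L : Type*} [LieRing L] [LieAlgebra ℂ L] {n r : ℕ}

/-- The values `κ(ey y_k, X)`. -/
noncomputable def Frame.fY (F : Frame L (UIx n r)) : L →ₗ[ℂ] (Fin n → ℂ) :=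
  LinearMap.pi fun k => killingForm ℂ L (F.ey (my r (Pi.single k 1)))

lemma Frame.fY_apply (F : Frame L (UIx n r)) (X : L) (k : Fin n) :
    F.fY X k = killingForm ℂ L (F.ey (my r (Pi.single k 1))) X := rfl

lemma Frame.dot_fY (F : Frame L (UIx n r)) (X : L) (a : Fin n → ℂ) :
    a ⬝ᵥ F.fY X = killingForm ℂ L (F.ey (my r a)) X := by
  conv_rhs => rw [vec_sum a, ← myl_apply, map_sum, map_sum, map_sum, LinearMap.sum_apply]
  rw [dotProduct]
  apply Finset.sum_congr rfl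
  intro k _
  rw [F.fY_apply, map_smul, map_smul, map_smul, LinearMap.smul_apply, smul_eq_mul, myl_apply]

/-- The operator of the multiplication `μ`. -/
noncomputable def Frame.op (F : Frame L (UIx n r)) (μ : Alg n) : L →ₗ[ℂ] L :=
  (killingForm ℂ L (F.ey (mJ n r))).smulRight (F.bx 0) + F.ey ∘ₗ mMl r μ ∘ₗ F.fY

lemma Frame.op_apply (F : Frame L (UIx n r)) (μ : Alg n) (X : L) :
    F.op μ X = killingForm ℂ L (F.ey (mJ n r)) X • F.bx 0 + F.ey (mM r μ (F.fY X)) := rfl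

variable {F : Frame L (UIx n r)}

lemma Frame.lie_b_e (F : Frame L (UIx n r)) (A : Matrix (UIx n r) (UIx n r) ℂ) :
    ⁅F.bx 0, F.ey A⁆ = 0 := F.comm 0 A (by rw [zero_mul, mul_zero])

lemma Frame.lie_e_b (F : Frame L (UIx n r)) (A : Matrix (UIx n r) (UIx n r) ℂ) :
    ⁅F.ey A, F.bx 0⁆ = 0 := by rw [← lie_skew, F.lie_b_e, neg_zero]

lemma Frame.kill_b_e (F : Frame L (UIx n r)) {A : Matrix (UIx n r) (UIx n r) ℂ}
    (hA : IsNilpotent A) : killingForm ℂ L (F.bx 0) (F.ey A) = 0 :=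
  F.kill_xy 0 A IsNilpotent.zero hA (by rw [zero_mul, mul_zero])

lemma Frame.kill_e_b (F : Frame L (UIx n r)) {A : Matrix (UIx n r) (UIx n r) ℂ}
    (hA : IsNilpotent A) : killingForm ℂ L (F.ey A) (F.bx 0) = 0 := by
  rw [← F.kill_b_e hA]
  exact LieModule.traceForm_comm ℂ L L _ _

lemma Frame.kill_b_b (F : Frame L (UIx n r)) : killingForm ℂ L (F.bx 0) (F.bx 0) = F.kxx :=
  F.kill_xx 0 IsNilpotent.zero

lemma Frame.Aff.op_sqZero (hF : F.Aff) (μ : Alg n) : SqZero (F.op μ) := by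
  have e0 : mM r μ (0 : Fin n → ℂ) = 0 := (mMl r μ).map_zero
  -- the operator kills what is killed by the functionals
  have hz : ∀ Y : L, killingForm ℂ L (F.ey (mJ n r)) Y = 0 →
      (∀ a, killingForm ℂ L (F.ey (my r a)) Y = 0) → F.op μ Y = 0 := by
    intro Y h1 h2
    have h3 : F.fY Y = 0 := by
      ext k
      rw [F.fY_apply, h2]
      rfl
    rw [F.op_apply, h1, h3, e0, map_zero, zero_smul, add_zero]
  -- elements commuting with the functionals
  have hl : ∀ (B : Matrix (UIx n r) (UIx n r) ℂ) (c : ℂ) (f : Fin n → ℂ),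
      B * mM r μ f = 0 → mM r μ f * B = 0 →
      ⁅F.ey B, c • F.bx 0 + F.ey (mM r μ f)⁆ = 0 := by
    intro B c f h1 h2
    rw [lie_add, lie_smul, F.lie_e_b, smul_zero, zero_add, hF.lie_ey_ey (by rw [h1, h2])]
  refine ⟨fun X Y => ?_, fun X Y => ?_, fun X => ?_⟩
  · rw [F.op_apply, F.op_apply]
    simp only [add_lie, lie_add, smul_lie, lie_smul, lie_self, F.lie_b_e, F.lie_e_b, smul_zero,
      add_zero, zero_add]
    exact hF.lie_ey_ey (by rw [mM_mM, mM_mM])
  · rw [F.op_apply μ X]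
    apply hz
    · rw [← LieModule.traceForm_apply_lie_apply, hl _ _ _ (mJ_mM _ _) (mM_mJ _ _)]
      simp
    · intro a
      rw [← LieModule.traceForm_apply_lie_apply, hl _ _ _ (my_mM _ _ _) (mM_my _ _ _)]
      simp
  · rw [F.op_apply μ X]
    apply hz
    · rw [map_add, map_smul, F.kill_e_b mJ_nil,
        hF.kill_ey_ey mJ_nil (mM_nil _ _) (by rw [mJ_mM, mM_mJ]), smul_zero, add_zero]
    · intro a
      rw [map_add, map_smul, F.kill_e_b (my_nil _),
        hF.kill_ey_ey (my_nil _) (mM_nil _ _) (by rw [my_mM, mM_my]), smul_zero, add_zero]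

lemma Frame.op_eq_sum (F : Frame L (UIx n r)) (μ : Alg n) :
    F.op μ = rankOne (F.bx 0) (F.ey (mJ n r)) +
      ∑ k, rankOne (F.ey (mM r μ (Pi.single k 1))) (F.ey (my r (Pi.single k 1))) := by
  apply LinearMap.ext
  intro X
  rw [F.op_apply, LinearMap.add_apply, LinearMap.sum_apply, rankOne_apply]
  simp only [rankOne_apply, ← F.fY_apply]
  congr 1
  conv_lhs => rw [← mMl_apply, vec_sum (F.fY X), map_sum, map_sum]
  apply Finset.sum_congr rfl
  intro k _
  rw [map_smul, map_smul, mMl_apply]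

lemma Frame.Aff.op_trace [FiniteDimensional ℂ L] (hF : F.Aff) (μ : Alg n) (Z : L) :
    LinearMap.trace ℂ L (F.op μ ∘ₗ LieAlgebra.ad ℂ L Z) = 0 := by
  have key : ((LinearMap.trace ℂ L) ∘ₗ
      (LinearMap.lcomp ℂ L (LieAlgebra.ad ℂ L Z : L →ₗ[ℂ] L))) (F.op μ) = 0 := by
    rw [F.op_eq_sum, map_add, map_sum]
    have h0 : ((LinearMap.trace ℂ L) ∘ₗ (LinearMap.lcomp ℂ L (LieAlgebra.ad ℂ L Z : L →ₗ[ℂ] L)))
        (rankOne (F.bx 0) (F.ey (mJ n r))) = 0 :=
      trace_rankOne_comp_ad (F.lie_b_e _) Z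
    rw [h0, zero_add]
    apply Finset.sum_eq_zero
    intro k _
    exact trace_rankOne_comp_ad (hF.lie_ey_ey (by rw [my_mM, mM_my])) Z
  exact key

/-- The functionals. -/
noncomputable def Frame.TT (F : Frame L (UIx n r)) : L →ₗ[ℂ] ℂ × (Fin n → ℂ) :=
  (killingForm ℂ L (F.ey (mJ n r))).prod F.fY

lemma Frame.ey_inj (F : Frame L (UIx n r)) {A : Matrix (UIx n r) (UIx n r) ℂ}
    (hA : IsNilpotent A) (h : F.ey A = 0) (w : UIx n r → ℂ) : A *ᵥ w = 0 := by
  have e := F.ey_col A hA w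
  rw [h, zero_lie] at e
  have e2 := congrArg F.colp e
  rw [map_zero, F.colp_col] at e2
  exact e2.symm

variable [LieAlgebra.IsKilling ℂ L] [FiniteDimensional ℂ L]

/-- The functionals are independent. -/
lemma Frame.TT_surj (hn : n ≠ 0) : Function.Surjective F.TT := by
  rw [← LinearMap.range_eq_top]
  by_contra hne
  obtain ⟨f, hf0, hf⟩ := Submodule.exists_le_ker_of_lt_top _ (lt_top_iff_ne_top.2 hne)
  apply hf0
  set c := f (1, 0) with hc
  set a : Fin n → ℂ := vecOf (f ∘ₗ LinearMap.inr ℂ ℂ (Fin n → ℂ)) with ha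
  have hfa : ∀ (x : ℂ) (w : Fin n → ℂ), f (x, w) = x * c + a ⬝ᵥ w := by
    intro x w
    have e : ((x, w) : ℂ × (Fin n → ℂ)) = x • (1, 0) + LinearMap.inr ℂ ℂ (Fin n → ℂ) w := by
      apply Prod.ext <;> simp
    rw [e, map_add, map_smul, ha, vecOf_dot, smul_eq_mul]
    rfl
  have h1 : ∀ X, killingForm ℂ L (F.ey (c • mJ n r + my r a)) X = 0 := by
    intro X
    have h2 : F.TT X ∈ LinearMap.ker f := hf ⟨X, rfl⟩
    rw [LinearMap.mem_ker] at h2
    have h3 : f (killingForm ℂ L (F.ey (mJ n r)) X, F.fY X) = 0 := h2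
    rw [hfa, F.dot_fY] at h3
    rw [map_add, map_add, map_smul, map_smul, LinearMap.add_apply, LinearMap.smul_apply,
      smul_eq_mul, mul_comm]
    exact h3
  have h2 : F.ey (c • mJ n r + my r a) = 0 := eq_zero_of_killing h1
  have hnil : IsNilpotent (c • mJ n r + my r a) := by
    refine ⟨2, ?_⟩
    rw [pow_two]
    apply mul_zero_ext
    intro w
    simp [Matrix.add_mulVec, Matrix.smul_mulVec, Jl_apply, yl_apply]
  have h3 := F.ey_inj hnil h2
  have hc0 : c = 0 := by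
    have h4 := h3 (eV r 0 (Pi.single (⟨0, Nat.pos_of_ne_zero hn⟩ : Fin n) 1))
    have h5 := congrFun (congrArg (cV r 1) h4) ⟨0, Nat.pos_of_ne_zero hn⟩
    simpa [Matrix.add_mulVec, Matrix.smul_mulVec, Jl_apply, yl_apply] using h5
  have ha0 : ∀ w : Fin n → ℂ, a ⬝ᵥ w = 0 := by
    intro w
    have h4 := h3 (eV r 0 w)
    have h5 := congrArg (cK n r) h4
    simpa [Matrix.add_mulVec, Matrix.smul_mulVec, Jl_apply, yl_apply] using h5
  apply LinearMap.ext
  rintro ⟨x, w⟩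
  rw [hfa, hc0, ha0, mul_zero, add_zero, LinearMap.zero_apply]

/-- The first consequences of an equivalence. -/
lemma Frame.Aff.first (hF : F.Aff) (hn : n ≠ 0) {μ ν : Alg n} (φ : L ≃ₗ⁅ℂ⁆ L)
    (hc : ∀ X, F.op μ (φ X) = φ (F.op ν X)) :
    ∃ (α : ℂ) (f₀ : Fin n → ℂ), α * α = 1 ∧ φ (F.bx 0) = α • F.bx 0 + F.ey (mM r μ f₀) ∧
      φ (F.ey (mJ n r)) = α • F.ey (mJ n r) ∧
      ∀ X, φ (F.ey (mM r ν (F.fY X))) + killingForm ℂ L (F.ey (mJ n r)) X • F.ey (mM r μ f₀)
        = F.ey (mM r μ (F.fY (φ X))) := by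
  have e0 : ∀ μ : Alg n, mM r μ (0 : Fin n → ℂ) = 0 := fun μ => (mMl r μ).map_zero
  have hkey : ∀ X, killingForm ℂ L (F.ey (mJ n r)) (φ X) • F.bx 0 + F.ey (mM r μ (F.fY (φ X)))
      = killingForm ℂ L (F.ey (mJ n r)) X • φ (F.bx 0) + φ (F.ey (mM r ν (F.fY X))) := by
    intro X
    have := hc X
    rw [F.op_apply, F.op_apply, map_add, map_smul] at this
    exact this
  have hkk : ∀ (x : ℂ) (f : Fin n → ℂ), killingForm ℂ L (x • F.bx 0 + F.ey (mM r μ f))
      (x • F.bx 0 + F.ey (mM r μ f)) = x * x * F.kxx := by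
    intro x f
    simp only [map_add, map_smul, LinearMap.add_apply, LinearMap.smul_apply,
      F.kill_b_e (mM_nil _ _), F.kill_e_b (mM_nil _ _), F.kill_b_b,
      hF.kill_ey_ey (mM_nil _ _) (mM_nil _ _) rfl, smul_eq_mul]
    ring
  -- the image of `bx 0`
  obtain ⟨X₀, hX₀⟩ := F.TT_surj hn (1, 0)
  have hX1 : killingForm ℂ L (F.ey (mJ n r)) X₀ = 1 := congrArg Prod.fst hX₀
  have hX2 : F.fY X₀ = 0 := congrArg Prod.snd hX₀
  set α := killingForm ℂ L (F.ey (mJ n r)) (φ X₀) with hα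
  set f₀ := F.fY (φ X₀) with hf₀
  have hb : φ (F.bx 0) = α • F.bx 0 + F.ey (mM r μ f₀) := by
    have := hkey X₀
    rw [hX1, hX2, e0, map_zero, map_zero, add_zero, one_smul] at this
    exact this.symm
  have hα2 : α * α = 1 := by
    have e := LieAlgebra.killingForm_of_equiv_apply φ (F.bx 0) (F.bx 0)
    rw [hb, hkk, F.kill_b_b] at e
    have : (α * α - 1) * F.kxx = 0 := by linear_combination e
    rcases mul_eq_zero.1 this with h | h
    · linear_combination h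
    · exact absurd h F.kxx_ne
  -- the images of the `M`
  have hM : ∀ f : Fin n → ℂ, ∃ g : Fin n → ℂ, φ (F.ey (mM r ν f)) = F.ey (mM r μ g) := by
    intro f
    obtain ⟨X, hX⟩ := F.TT_surj hn (0, f)
    have h1 : killingForm ℂ L (F.ey (mJ n r)) X = 0 := congrArg Prod.fst hX
    have h2 : F.fY X = f := congrArg Prod.snd hX
    have h3 := hkey X
    rw [h1, h2, zero_smul, zero_add] at h3
    set β := killingForm ℂ L (F.ey (mJ n r)) (φ X)
    have e := LieAlgebra.killingForm_of_equiv_apply φ (F.ey (mM r ν f)) (F.ey (mM r ν f))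
    rw [← h3, hkk, hF.kill_ey_ey (mM_nil _ _) (mM_nil _ _) rfl] at e
    have hβ : β = 0 := by
      rcases mul_eq_zero.1 e with h | h
      · exact mul_self_eq_zero.1 h
      · exact absurd h F.kxx_ne
    refine ⟨F.fY (φ X), ?_⟩
    rw [← h3, hβ, zero_smul, zero_add]
  have hJ : ∀ X, killingForm ℂ L (F.ey (mJ n r)) (φ X) = α * killingForm ℂ L (F.ey (mJ n r)) X := by
    intro X
    have h1 := hkey X
    obtain ⟨g, hg⟩ := hM (F.fY X)
    rw [hg, hb] at h1
    have h2 := congrArg (killingForm ℂ L (F.bx 0)) h1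
    simp only [map_add, map_smul, F.kill_b_e (mM_nil _ _), F.kill_b_b, smul_eq_mul, add_zero] at h2
    have h3 : (killingForm ℂ L (F.ey (mJ n r)) (φ X) - α * killingForm ℂ L (F.ey (mJ n r)) X)
        * F.kxx = 0 := by linear_combination h2
    rcases mul_eq_zero.1 h3 with h | h
    · linear_combination h
    · exact absurd h F.kxx_ne
  refine ⟨α, f₀, hα2, hb, ?_, ?_⟩
  · rw [← sub_eq_zero]
    apply eq_zero_of_killing
    intro Y
    have h1 := LieAlgebra.killingForm_of_equiv_apply φ (F.ey (mJ n r)) (φ.symm Y)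
    rw [LieEquiv.apply_symm_apply] at h1
    have h2 := hJ (φ.symm Y)
    rw [LieEquiv.apply_symm_apply] at h2
    rw [map_sub, LinearMap.sub_apply, map_smul, LinearMap.smul_apply, h1, h2, smul_eq_mul,
      ← mul_assoc, hα2, one_mul, sub_self]
  · intro X
    have h1 := hkey X
    rw [hJ, hb, smul_add, smul_smul, mul_comm] at h1
    have h2 : F.ey (mM r μ (F.fY (φ X))) = killingForm ℂ L (F.ey (mJ n r)) X • F.ey (mM r μ f₀)
        + φ (F.ey (mM r ν (F.fY X))) := by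
      linear_combination (norm := module) h1
    rw [h2, add_comm]

end Op

end Pool.Agent.Work.MP_3d4872_al
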