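import Pool.Agent.Work.MP_3d4872_al.Un.Rev

/-!
# MP_3d4872_al: pairs of matrices as algebras

The pair `(A, B)` of `m × m` matrices gives a multiplication on `ℂ^m × ℂ × ℂ`; two pairs are
simultaneously similar if and only if the algebras are isomorphic.
-/

set_option autoImplicit false
set_option linter.unusedSectionVars false

namespace Pool.Agent.Work.MP_3d4872_al

open Matrix LieAlgebra

variable {m : ℕ}

/-- the underlying space -/
abbrev PW (m : ℕ) : Type := (Fin m → ℂ) × ℂ × ℂ

/-- the linear part -/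
noncomputable def pairLin (A B : Matrix (Fin m) (Fin m) ℂ) : PW m →ₗ[ℂ] PW m →ₗ[ℂ] PW m :=
  LinearMap.mk₂ ℂ (fun x y => (x.2.1 • (A *ᵥ y.1) + x.2.2 • (B *ᵥ y.1), 0, 0))
    (fun x x' y => by
      apply Prod.ext
      · simp only [Prod.fst_add, Prod.snd_add, add_smul]
        abel
      · simp)
    (fun c x y => by
      apply Prod.ext
      · simp only [Prod.smul_fst, Prod.smul_snd, smul_add, smul_smul, smul_eq_mul]
      · simp)
    (fun x y y' => by
      apply Prod.ext
      · simp only [Prod.fst_add, Matrix.mulVec_add, smul_add]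
        abel
      · simp)
    (fun c x y => by
      apply Prod.ext
      · simp only [Prod.smul_fst, Matrix.mulVec_smul, smul_add, smul_comm c]
      · simp)

/-- the constant part -/
noncomputable def pairCst (m : ℕ) : PW m →ₗ[ℂ] PW m →ₗ[ℂ] PW m :=
  LinearMap.mk₂ ℂ (fun x y => (0, x.2.1 * y.2.1 + x.2.2 * y.2.2, x.2.1 * y.2.2 + x.2.2 * y.2.2))
    (fun x x' y => by
      apply Prod.ext
      · simp
      · apply Prod.ext <;> simp only [Prod.fst_add, Prod.snd_add] <;> ring)
    (fun c x y => by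
      apply Prod.ext
      · simp
      · apply Prod.ext <;> simp only [Prod.smul_fst, Prod.smul_snd, smul_eq_mul] <;> ring)
    (fun x y y' => by
      apply Prod.ext
      · simp
      · apply Prod.ext <;> simp only [Prod.fst_add, Prod.snd_add] <;> ring)
    (fun c x y => by
      apply Prod.ext
      · simp
      · apply Prod.ext <;> simp only [Prod.smul_fst, Prod.smul_snd, smul_eq_mul] <;> ring)

/-- the multiplication of a pair -/
noncomputable def pairMul (A B : Matrix (Fin m) (Fin m) ℂ) : PW m →ₗ[ℂ] PW m →ₗ[ℂ] PW m :=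
  pairLin A B + pairCst m

lemma pairMul_apply (A B : Matrix (Fin m) (Fin m) ℂ) (x y : PW m) :
    pairMul A B x y = (x.2.1 • (A *ᵥ y.1) + x.2.2 • (B *ᵥ y.1),
      x.2.1 * y.2.1 + x.2.2 * y.2.2, x.2.1 * y.2.2 + x.2.2 * y.2.2) := by
  change (x.2.1 • (A *ᵥ y.1) + x.2.2 • (B *ᵥ y.1), (0 : ℂ), (0 : ℂ)) +
    ((0 : Fin m → ℂ), x.2.1 * y.2.1 + x.2.2 * y.2.2, x.2.1 * y.2.2 + x.2.2 * y.2.2) = _
  simp

/-- an isomorphism of the algebras makes the pairs similar -/
theorem pair_iso {A B A' B' : Matrix (Fin m) (Fin m) ℂ} (g : PW m ≃ₗ[ℂ] PW m)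
    (hg : ∀ x y, g (pairMul A B x y) = pairMul A' B' (g x) (g y)) : SimSim (A, B) (A', B') := by
  have inj2 : ∀ x, (∀ y, pairMul A B x y = 0) → x.2.1 = 0 ∧ x.2.2 = 0 := by
    intro x hx
    have h1 := hx (0, 1, 0)
    have h2 := hx (0, 0, 1)
    rw [pairMul_apply] at h1 h2
    have h3 := congrArg (fun z : PW m => z.2.1) h1
    have h4 := congrArg (fun z : PW m => z.2.1) h2
    simp at h3 h4
    exact ⟨h3, h4⟩
  have inj2' : ∀ x, (∀ y, pairMul A' B' x y = 0) → x.2.1 = 0 ∧ x.2.2 = 0 := by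
    intro x hx
    have h1 := hx (0, 1, 0)
    have h2 := hx (0, 0, 1)
    rw [pairMul_apply] at h1 h2
    have h3 := congrArg (fun z : PW m => z.2.1) h1
    have h4 := congrArg (fun z : PW m => z.2.1) h2
    simp at h3 h4
    exact ⟨h3, h4⟩
  -- `g` preserves the left annihilator
  have hU : ∀ u : Fin m → ℂ, g (u, 0, 0) = ((g (u, 0, 0)).1, 0, 0) := by
    intro u
    have h1 : (g (u, 0, 0)).2.1 = 0 ∧ (g (u, 0, 0)).2.2 = 0 := by
      apply inj2'
      intro y
      obtain ⟨z, rfl⟩ := g.surjective y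
      rw [← hg, pairMul_apply]
      simp only [zero_smul, zero_mul, add_zero]
      exact map_zero g
    exact Prod.ext rfl (Prod.ext h1.1 h1.2)
  have hU' : ∀ u : Fin m → ℂ, g.symm (u, 0, 0) = ((g.symm (u, 0, 0)).1, 0, 0) := by
    intro u
    have h1 : (g.symm (u, 0, 0)).2.1 = 0 ∧ (g.symm (u, 0, 0)).2.2 = 0 := by
      apply inj2
      intro y
      apply g.injective
      rw [hg, g.apply_symm_apply, pairMul_apply, map_zero]
      simp only [zero_smul, zero_mul, add_zero]
      rfl
    exact Prod.ext rfl (Prod.ext h1.1 h1.2)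
  -- the image of `a`
  set a : PW m := (0, 1, 0) with ha
  set b : PW m := (0, 0, 1) with hb
  have hga : (g a).2.1 = 1 ∧ (g a).2.2 = 0 := by
    -- `a` is a left identity modulo the annihilator
    have h1 : ∀ y, (pairMul A' B' (g a) y).2 = y.2 := by
      intro y
      obtain ⟨z, rfl⟩ := g.surjective y
      rw [← hg]
      have h2 : pairMul A B a z = z + (A *ᵥ z.1 - z.1, 0, 0) := by
        rw [pairMul_apply, ha]
        apply Prod.ext
        · simp
        · apply Prod.ext <;> simp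
      rw [h2, map_add, hU]
      simp
    have h3 := h1 (0, 1, 0)
    have h4 := h1 (0, 0, 1)
    rw [pairMul_apply] at h3 h4
    have h5 := congrArg Prod.fst h3
    have h6 := congrArg Prod.fst h4
    simp at h5 h6
    exact ⟨h5, h6⟩
  have hgb : (g b).2.1 = 0 ∧ (g b).2.2 = 1 := by
    have h1 : pairMul A B b a = 0 := by
      rw [pairMul_apply, ha, hb]
      simp
    have h2 : pairMul A' B' (g b) (g a) = 0 := by rw [← hg, h1, map_zero]
    rw [pairMul_apply, hga.1, hga.2] at h2
    have h3 := congrArg (fun z : PW m => z.2.1) h2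
    simp at h3
    have h4 : pairMul A B b b = a + b := by
      rw [pairMul_apply, ha, hb]
      simp
    have h5 : pairMul A' B' (g b) (g b) = g a + g b := by rw [← hg, h4, map_add]
    rw [pairMul_apply, h3] at h5
    have h6 := congrArg (fun z : PW m => z.2.1) h5
    have h7 := congrArg (fun z : PW m => z.2.2) h5
    simp only [Prod.snd_add, Prod.fst_add, h3, hga.1, hga.2] at h6 h7
    refine ⟨h3, ?_⟩
    have h8 : (g b).2.2 * (g b).2.2 = 1 := by linear_combination h6
    have h9 : (g b).2.2 * (g b).2.2 = (g b).2.2 := by linear_combination h7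
    rw [← h9, h8]
  -- the matrix
  set P : (Fin m → ℂ) →ₗ[ℂ] (Fin m → ℂ) :=
    LinearMap.fst ℂ _ _ ∘ₗ (g : PW m →ₗ[ℂ] PW m) ∘ₗ LinearMap.inl ℂ _ _ with hP
  set P' : (Fin m → ℂ) →ₗ[ℂ] (Fin m → ℂ) :=
    LinearMap.fst ℂ _ _ ∘ₗ (g.symm : PW m →ₗ[ℂ] PW m) ∘ₗ LinearMap.inl ℂ _ _ with hP'
  have hPa : ∀ u, P u = (g (u, 0, 0)).1 := fun u => rfl
  have hPa' : ∀ u, P' u = (g.symm (u, 0, 0)).1 := fun u => rfl
  have hgP : ∀ u, g (u, 0, 0) = (P u, 0, 0) := fun u => by rw [hU, hPa]
  have hgP' : ∀ u, g.symm (u, 0, 0) = (P' u, 0, 0) := fun u => by rw [hU', hPa']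
  have h1 : ∀ u, P (P' u) = u := by
    intro u
    have := g.apply_symm_apply (u, 0, 0)
    rw [hgP', hgP] at this
    exact congrArg Prod.fst this
  have h2 : ∀ u, P' (P u) = u := by
    intro u
    have := g.symm_apply_apply (u, 0, 0)
    rw [hgP, hgP'] at this
    exact congrArg Prod.fst this
  have hA : ∀ u, P (A *ᵥ u) = A' *ᵥ P u := by
    intro u
    have h3 : pairMul A B a (u, 0, 0) = (A *ᵥ u, 0, 0) := by
      rw [pairMul_apply, ha]
      simp
    have h4 := hg a (u, 0, 0)
    rw [h3, hgP, hgP, pairMul_apply, hga.1, hga.2] at h4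
    have h5 := congrArg Prod.fst h4
    simpa using h5
  have hB : ∀ u, P (B *ᵥ u) = B' *ᵥ P u := by
    intro u
    have h3 : pairMul A B b (u, 0, 0) = (B *ᵥ u, 0, 0) := by
      rw [pairMul_apply, hb]
      simp
    have h4 := hg b (u, 0, 0)
    rw [h3, hgP, hgP, pairMul_apply, hgb.1, hgb.2] at h4
    have h5 := congrArg Prod.fst h4
    simpa using h5
  have hmul : ∀ C D : Matrix (Fin m) (Fin m) ℂ, (∀ u, C *ᵥ u = D *ᵥ u) → C = D := fun C D h =>
    Matrix.ext_of_mulVec_single fun _ => h _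
  refine ⟨⟨LinearMap.toMatrix' P, LinearMap.toMatrix' P', ?_, ?_⟩, ?_, ?_⟩
  · apply hmul
    intro u
    rw [← Matrix.mulVec_mulVec, LinearMap.toMatrix'_mulVec, LinearMap.toMatrix'_mulVec, h1,
      Matrix.one_mulVec]
  · apply hmul
    intro u
    rw [← Matrix.mulVec_mulVec, LinearMap.toMatrix'_mulVec, LinearMap.toMatrix'_mulVec, h2,
      Matrix.one_mulVec]
  · apply hmul
    intro u
    change A' *ᵥ u = (LinearMap.toMatrix' P * A * LinearMap.toMatrix' P') *ᵥ u
    rw [← Matrix.mulVec_mulVec, ← Matrix.mulVec_mulVec, LinearMap.toMatrix'_mulVec,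
      LinearMap.toMatrix'_mulVec, hA, h1]
  · apply hmul
    intro u
    change B' *ᵥ u = (LinearMap.toMatrix' P * B * LinearMap.toMatrix' P') *ᵥ u
    rw [← Matrix.mulVec_mulVec, ← Matrix.mulVec_mulVec, LinearMap.toMatrix'_mulVec,
      LinearMap.toMatrix'_mulVec, hB, h1]

/-- similar pairs give isomorphic algebras -/
theorem iso_pair {p q : Matrix (Fin m) (Fin m) ℂ × Matrix (Fin m) (Fin m) ℂ} (h : SimSim p q) :
    ∃ g : PW m ≃ₗ[ℂ] PW m, ∀ x y, g (pairMul p.1 p.2 x y) = pairMul q.1 q.2 (g x) (g y) := by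
  obtain ⟨P, h1, h2⟩ := h
  have e1 : ∀ u : Fin m → ℂ, P.val *ᵥ (P⁻¹.val *ᵥ u) = u := by
    intro u
    rw [Matrix.mulVec_mulVec, Units.mul_inv, Matrix.one_mulVec]
  have e2 : ∀ u : Fin m → ℂ, P⁻¹.val *ᵥ (P.val *ᵥ u) = u := by
    intro u
    rw [Matrix.mulVec_mulVec, Units.inv_mul, Matrix.one_mulVec]
  refine ⟨{ toFun := fun x => (P.val *ᵥ x.1, x.2)
            map_add' := fun x y => by
              apply Prod.ext
              · simp [Matrix.mulVec_add]
              · rfl
            map_smul' := fun c x => by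
              apply Prod.ext
              · simp [Matrix.mulVec_smul]
              · rfl
            invFun := fun x => (P⁻¹.val *ᵥ x.1, x.2)
            left_inv := fun x => by
              apply Prod.ext
              · exact e2 x.1
              · rfl
            right_inv := fun x => by
              apply Prod.ext
              · exact e1 x.1
              · rfl }, fun x y => ?_⟩
  change (P.val *ᵥ (pairMul p.1 p.2 x y).1, (pairMul p.1 p.2 x y).2)
    = pairMul q.1 q.2 (P.val *ᵥ x.1, x.2) (P.val *ᵥ y.1, y.2)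
  rw [pairMul_apply, pairMul_apply]
  apply Prod.ext
  · simp only [Matrix.mulVec_add, Matrix.mulVec_smul, h1, h2]
    rw [← Matrix.mulVec_mulVec, ← Matrix.mulVec_mulVec, ← Matrix.mulVec_mulVec,
      ← Matrix.mulVec_mulVec, e2]
  · rfl

/-- the coordinates -/
noncomputable def pwEquiv (m : ℕ) : (Fin (m + 2) → ℂ) ≃ₗ[ℂ] PW m :=
  LinearEquiv.ofFinrankEq _ _ (by simp)

/-- a multiplication in coordinates -/
noncomputable def toAlg (m : ℕ) : (PW m →ₗ[ℂ] PW m →ₗ[ℂ] PW m) →ₗ[ℂ] Alg (m + 2) where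
  toFun β := LinearMap.mk₂ ℂ (fun x y => (pwEquiv m).symm (β (pwEquiv m x) (pwEquiv m y)))
    (fun x x' y => by simp) (fun c x y => by simp) (fun x y y' => by simp) (fun c x y => by simp)
  map_add' β β' := by
    apply LinearMap.ext₂
    intro x y
    simp
  map_smul' c β := by
    apply LinearMap.ext₂
    intro x y
    simp

lemma toAlg_apply (β : PW m →ₗ[ℂ] PW m →ₗ[ℂ] PW m) (x y : Fin (m + 2) → ℂ) :
    toAlg m β x y = (pwEquiv m).symm (β (pwEquiv m x) (pwEquiv m y)) := rfl

/-- the pairs as multiplications, an affine map -/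
noncomputable def pairAff (m : ℕ) :
    (Matrix (Fin m) (Fin m) ℂ × Matrix (Fin m) (Fin m) ℂ) →ᵃ[ℂ] Alg (m + 2) where
  toFun p := toAlg m (pairMul p.1 p.2)
  linear :=
    { toFun := fun p => toAlg m (pairLin p.1 p.2)
      map_add' := fun p q => by
        rw [← map_add]
        congr 1
        apply LinearMap.ext₂
        intro x y
        change ((x.2.1 • ((p.1 + q.1) *ᵥ y.1) + x.2.2 • ((p.2 + q.2) *ᵥ y.1), (0 : ℂ), (0 : ℂ)) :
            PW m) = (x.2.1 • (p.1 *ᵥ y.1) + x.2.2 • (p.2 *ᵥ y.1), 0, 0) +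
            (x.2.1 • (q.1 *ᵥ y.1) + x.2.2 • (q.2 *ᵥ y.1), 0, 0)
        apply Prod.ext
        · simp only [Matrix.add_mulVec, smul_add, Prod.fst_add]
          abel
        · simp
      map_smul' := fun c p => by
        rw [RingHom.id_apply, ← map_smul]
        congr 1
        apply LinearMap.ext₂
        intro x y
        change ((x.2.1 • ((c • p.1) *ᵥ y.1) + x.2.2 • ((c • p.2) *ᵥ y.1), (0 : ℂ), (0 : ℂ)) :
            PW m) = c • (x.2.1 • (p.1 *ᵥ y.1) + x.2.2 • (p.2 *ᵥ y.1), 0, 0)
        apply Prod.ext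
        · simp only [Matrix.smul_mulVec, smul_add, Prod.smul_fst, smul_comm c]
        · simp }
  map_vadd' p q := by
    change toAlg m (pairMul (q.1 + p.1) (q.2 + p.2)) =
      toAlg m (pairLin q.1 q.2) + toAlg m (pairMul p.1 p.2)
    rw [← map_add]
    congr 1
    apply LinearMap.ext₂
    intro x y
    rw [LinearMap.add_apply, LinearMap.add_apply, pairMul_apply, pairMul_apply]
    change _ = ((x.2.1 • (q.1 *ᵥ y.1) + x.2.2 • (q.2 *ᵥ y.1), (0 : ℂ), (0 : ℂ)) : PW m) + _
    apply Prod.ext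
    · simp only [Matrix.add_mulVec, smul_add, Prod.fst_add]
      abel
    · simp

lemma pairAff_apply (p : Matrix (Fin m) (Fin m) ℂ × Matrix (Fin m) (Fin m) ℂ) :
    pairAff m p = toAlg m (pairMul p.1 p.2) := rfl

lemma algIso_pair_iff (p q : Matrix (Fin m) (Fin m) ℂ × Matrix (Fin m) (Fin m) ℂ) :
    AlgIso (pairAff m p) (pairAff m q) ↔ SimSim p q := by
  constructor
  · rintro ⟨g, hg⟩
    apply pair_iso (A := p.1) (B := p.2) (A' := q.1) (B' := q.2)
      (((pwEquiv m).symm.trans g).trans (pwEquiv m))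
    intro x y
    have h1 := hg ((pwEquiv m).symm x) ((pwEquiv m).symm y)
    rw [pairAff_apply, pairAff_apply, toAlg_apply, toAlg_apply, LinearEquiv.apply_symm_apply,
      LinearEquiv.apply_symm_apply] at h1
    have h2 := congrArg (pwEquiv m) h1
    rw [LinearEquiv.apply_symm_apply] at h2
    exact h2
  · intro h
    obtain ⟨g, hg⟩ := iso_pair h
    refine ⟨((pwEquiv m).trans g).trans (pwEquiv m).symm, fun x y => ?_⟩
    change (pwEquiv m).symm (g (pwEquiv m (toAlg m (pairMul p.1 p.2) x y)))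
      = toAlg m (pairMul q.1 q.2) ((pwEquiv m).symm (g (pwEquiv m x)))
        ((pwEquiv m).symm (g (pwEquiv m y)))
    rw [toAlg_apply, toAlg_apply, LinearEquiv.apply_symm_apply, LinearEquiv.apply_symm_apply,
      LinearEquiv.apply_symm_apply, hg]

/-- There is an affine map from the pairs of complex `m × m` matrices to the bilinear maps on `L`
whose values are Lie brackets compatible with the bracket of `L`, and two values are equivalent if
and only if the pairs of matrices are simultaneously similar. -/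
def ContainsMatrixPairs (m : ℕ) (L : Type*) [LieRing L] [LieAlgebra ℂ L] : Prop :=
  ∃ Ψ : Matrix (Fin m) (Fin m) ℂ × Matrix (Fin m) (Fin m) ℂ → Br L, IsAffineMap Ψ ∧
    (∀ p, Compatible (Ψ p)) ∧ ∀ p q, Equivalent (Ψ p) (Ψ q) ↔ SimSim p q

theorem ContainsAlgebras.pairs {L : Type*} [LieRing L] [LieAlgebra ℂ L]
    (h : ContainsAlgebras (m + 2) L) : ContainsMatrixPairs m L := by
  obtain ⟨Φ, h0, h1, h2⟩ := h
  refine ⟨fun p => Φ (pairAff m p), ?_, fun p => h1 _, fun p q => ?_⟩
  · intro x y t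
    have e : pairAff m (t • x + (1 - t) • y) = t • pairAff m x + (1 - t) • pairAff m y := by
      have h3 := (pairAff m).linear.map_add (t • x) ((1 - t) • y)
      have h4 : ∀ p, pairAff m p = (pairAff m).linear p + pairAff m 0 := by
        intro p
        have := (pairAff m).map_vadd 0 p
        rw [vadd_eq_add, add_zero] at this
        exact this
      rw [h4 (t • x + (1 - t) • y), h4 x, h4 y, h3, map_smul, map_smul]
      module
    change Φ (pairAff m (t • x + (1 - t) • y)) = t • Φ (pairAff m x) + (1 - t) • Φ (pairAff m y)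
    rw [e, h0]
  · exact (h2 _ _).trans (algIso_pair_iff p q)

end Pool.Agent.Work.MP_3d4872_al
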