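import Pool.Agent.Work.MP_3d4872_al.Un.Fwd

/-!
# MP_3d4872_al: isomorphic multiplications give equivalent brackets; the affine family
-/

set_option autoImplicit false
set_option linter.unusedSectionVars false

namespace Pool.Agent.Work.MP_3d4872_al

open Matrix LieAlgebra

section Conj

variable {n r : ℕ}

/-- The transposed map. -/
noncomputable def trL (g : (Fin n → ℂ) →ₗ[ℂ] (Fin n → ℂ)) : (Fin n → ℂ) →ₗ[ℂ] (Fin n → ℂ) :=
  Matrix.mulVecLin (LinearMap.toMatrix' g)ᵀ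

lemma trL_dot (g : (Fin n → ℂ) →ₗ[ℂ] (Fin n → ℂ)) (f v : Fin n → ℂ) :
    trL g f ⬝ᵥ v = f ⬝ᵥ g v := by
  rw [trL, Matrix.mulVecLin_apply, Matrix.mulVec_transpose, ← Matrix.dotProduct_mulVec,
    LinearMap.toMatrix'_mulVec]

/-- The block diagonal map. -/
def Ql (r : ℕ) (g : (Fin n → ℂ) →ₗ[ℂ] (Fin n → ℂ)) : (UIx n r → ℂ) →ₗ[ℂ] (UIx n r → ℂ) where
  toFun w := Sum.elim (fun p => g (cV r p.1 w) p.2)
    (Sum.elim (fun _ => cK n r w) (cZ n w))
  map_add' u v := by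
    apply ext_c
    · intro i
      change g (cV r i (u + v)) = g (cV r i u) + g (cV r i v)
      rw [map_add, map_add]
    · rfl
    · rfl
  map_smul' c v := by
    apply ext_c
    · intro i
      change g (cV r i (c • v)) = c • g (cV r i v)
      rw [map_smul, map_smul]
    · rfl
    · rfl

variable (g g' : (Fin n → ℂ) →ₗ[ℂ] (Fin n → ℂ))

@[simp] lemma cV_Ql (i : Fin 2) (w : UIx n r → ℂ) : cV r i (Ql r g w) = g (cV r i w) := rfl
@[simp] lemma cK_Ql (w : UIx n r → ℂ) : cK n r (Ql r g w) = cK n r w := rfl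
@[simp] lemma cZ_Ql (w : UIx n r → ℂ) : cZ n (Ql r g w) = cZ n w := rfl

@[simp] lemma Ql_eV (i : Fin 2) (v : Fin n → ℂ) : Ql r g (eV r i v) = eV r i (g v) := by
  apply ext_c
  · intro j
    rw [cV_Ql, cV_eV, cV_eV]
    split_ifs with hij
    · rfl
    · rw [map_zero]
  · rw [cK_Ql, cK_eV, cK_eV]
  · rw [cZ_Ql, cZ_eV, cZ_eV]

@[simp] lemma Ql_eK (c : ℂ) : Ql r g (eK n r c) = eK n r c := by
  apply ext_c
  · intro j
    rw [cV_Ql, cV_eK, map_zero]
  · rw [cK_Ql]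
  · rw [cZ_Ql]

variable {g g'}

lemma Ql_Ql (hg : ∀ v, g (g' v) = v) (w : UIx n r → ℂ) : Ql r g (Ql r g' w) = w := by
  apply ext_c
  · intro i
    rw [cV_Ql, cV_Ql, hg]
  · rw [cK_Ql, cK_Ql]
  · rw [cZ_Ql, cZ_Ql]

/-- The matrix of the block diagonal map. -/
noncomputable def mQ (r : ℕ) (g : (Fin n → ℂ) →ₗ[ℂ] (Fin n → ℂ)) :
    Matrix (UIx n r) (UIx n r) ℂ := LinearMap.toMatrix' (Ql r g)

@[simp] lemma mQ_mulVec (g : (Fin n → ℂ) →ₗ[ℂ] (Fin n → ℂ)) (w : UIx n r → ℂ) :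
    mQ r g *ᵥ w = Ql r g w := LinearMap.toMatrix'_mulVec _ _

lemma mQ_mQ (hg : ∀ v, g (g' v) = v) : mQ r g * mQ r g' = 1 :=
  mul_ext fun w => by rw [mQ_mulVec, mQ_mulVec, Ql_Ql hg, Matrix.one_mulVec]

lemma mQ_mJ (hg : ∀ v, g (g' v) = v) : mQ r g * mJ n r * mQ r g' = mJ n r := by
  apply mat_ext
  intro w
  rw [← Matrix.mulVec_mulVec, ← Matrix.mulVec_mulVec, mQ_mulVec, mQ_mulVec, mJ_mulVec, mJ_mulVec,
    Jl_apply, Jl_apply]
  simp only [cV_Ql, Ql_eV, hg]

lemma mQ_my (a : Fin n → ℂ) : mQ r g * my r a * mQ r g' = my r (trL g' a) := by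
  apply mat_ext
  intro w
  rw [← Matrix.mulVec_mulVec, ← Matrix.mulVec_mulVec, mQ_mulVec, mQ_mulVec, my_mulVec, my_mulVec,
    yl_apply, yl_apply, map_smul, Ql_eK, cV_Ql, trL_dot]

lemma mQ_mM {μ ν : Alg n} (hg : ∀ v, g (g' v) = v) (hμ : ∀ u v, g (μ u v) = ν (g u) (g v))
    (f : Fin n → ℂ) : mQ r g * mM r μ f * mQ r g' = mM r ν (g f) := by
  apply mat_ext
  intro w
  rw [← Matrix.mulVec_mulVec, ← Matrix.mulVec_mulVec, mQ_mulVec, mQ_mulVec, mM_mulVec, mM_mulVec,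
    Ml_apply, Ml_apply]
  simp only [cV_Ql, Ql_eV, hμ, hg]

end Conj

section Rev

variable {L : Type*} [LieRing L] [LieAlgebra ℂ L] {n r : ℕ} {F : Frame L (UIx n r)}

/-- Isomorphic multiplications give equivalent brackets. -/
theorem Frame.equivalent_of_algIso (F : Frame L (UIx n r)) {μ ν : Alg n} (h : AlgIso μ ν) :
    Equivalent (opBracket (F.op μ)) (opBracket (F.op ν)) := by
  obtain ⟨g, hg⟩ := h
  set gi : (Fin n → ℂ) →ₗ[ℂ] (Fin n → ℂ) := (g.symm : (Fin n → ℂ) →ₗ[ℂ] (Fin n → ℂ)) with hgi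
  set gl : (Fin n → ℂ) →ₗ[ℂ] (Fin n → ℂ) := (g : (Fin n → ℂ) →ₗ[ℂ] (Fin n → ℂ)) with hgl
  have h1 : ∀ v, gl (gi v) = v := fun v => g.apply_symm_apply v
  have h2 : ∀ v, gi (gl v) = v := fun v => g.symm_apply_apply v
  obtain ⟨ψ, hx, hy⟩ := F.conj (mQ r gl) (mQ r gi) (mQ_mQ h1) (mQ_mQ h2)
  apply equivalent_of_conj ψ
  intro X
  have hb : ψ (F.bx 0) = F.bx 0 := by rw [hx, mul_zero, zero_mul]
  have e1 : killingForm ℂ L (F.ey (mJ n r)) (ψ X) = killingForm ℂ L (F.ey (mJ n r)) X := by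
    have e := LieAlgebra.killingForm_of_equiv_apply ψ (F.ey (mJ n r)) X
    rwa [hy, mQ_mJ h1] at e
  have e2 : F.fY (ψ X) = gl (F.fY X) := by
    apply eq_of_dot
    intro a
    have e3 : trL gi (trL gl a) = a := by
      apply eq_of_dot
      intro v
      rw [dotProduct_comm, trL_dot, trL_dot, h1, dotProduct_comm]
    have e := LieAlgebra.killingForm_of_equiv_apply ψ (F.ey (my r (trL gl a))) X
    rw [hy, mQ_my, e3, ← F.dot_fY, ← F.dot_fY, trL_dot] at e
    exact e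
  rw [F.op_apply, F.op_apply, map_add, map_smul, hb, hy,
    mQ_mM h1 (μ := μ) (ν := ν) (fun u v => hg u v), e1, e2]

/-- The linear part of the operator. -/
noncomputable def Frame.opLin (F : Frame L (UIx n r)) : Alg n →ₗ[ℂ] (L →ₗ[ℂ] L) where
  toFun μ := F.ey ∘ₗ mMl r μ ∘ₗ F.fY
  map_add' μ ν := by
    apply LinearMap.ext
    intro X
    simp only [LinearMap.add_apply, LinearMap.comp_apply, ← map_add]
    congr 1
    apply mat_ext
    intro w
    rw [Matrix.add_mulVec, mMl_apply, mMl_apply, mMl_apply, mM_mulVec, mM_mulVec, mM_mulVec,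
      Ml_apply, Ml_apply, Ml_apply, ← map_add]
    rfl
  map_smul' c μ := by
    apply LinearMap.ext
    intro X
    change F.ey (mM r (c • μ) (F.fY X)) = c • F.ey (mM r μ (F.fY X))
    rw [← map_smul]
    congr 1
    apply mat_ext
    intro w
    rw [Matrix.smul_mulVec, mM_mulVec, mM_mulVec, Ml_apply, Ml_apply, ← map_smul]
    rfl

lemma Frame.op_add (F : Frame L (UIx n r)) (μ ν : Alg n) :
    F.op (μ + ν) = F.opLin μ + F.op ν := by
  have h := F.opLin.map_add μ ν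
  change (killingForm ℂ L (F.ey (mJ n r))).smulRight (F.bx 0) + F.opLin (μ + ν)
    = F.opLin μ + ((killingForm ℂ L (F.ey (mJ n r))).smulRight (F.bx 0) + F.opLin ν)
  rw [h]
  abel

/-- The bracket as a linear function of the operator. -/
noncomputable def opBracketL (L : Type*) [LieRing L] [LieAlgebra ℂ L] :
    (L →ₗ[ℂ] L) →ₗ[ℂ] (L →ₗ[ℂ] L →ₗ[ℂ] L) where
  toFun R := opBracket R
  map_add' R R' := by
    ext X Y
    simp only [opBracket_apply, LinearMap.add_apply, add_lie, lie_add]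
    abel
  map_smul' c R := by
    ext X Y
    simp only [opBracket_apply, LinearMap.smul_apply, smul_lie, lie_smul, RingHom.id_apply,
      smul_sub, smul_add]

/-- `f` is an affine map. -/
def IsAffineMap {V W : Type*} [AddCommGroup V] [Module ℂ V] [AddCommGroup W] [Module ℂ W]
    (f : V → W) : Prop :=
  ∀ (x y : V) (t : ℂ), f (t • x + (1 - t) • y) = t • f x + (1 - t) • f y

/-- The bilinear maps on `L`. -/
abbrev Br (L : Type*) [LieRing L] [LieAlgebra ℂ L] : Type _ := L →ₗ[ℂ] L →ₗ[ℂ] L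

/-- There is an affine map from the multiplications on `ℂ^n` (all bilinear maps
`ℂ^n × ℂ^n → ℂ^n`) to the bilinear maps on `L` whose values are Lie brackets compatible with the
bracket of `L`, and two values are equivalent if and only if the two algebras are isomorphic. -/
def ContainsAlgebras (n : ℕ) (L : Type*) [LieRing L] [LieAlgebra ℂ L] : Prop :=
  ∃ Φ : Alg n → Br L, IsAffineMap Φ ∧
    (∀ μ, Compatible (Φ μ)) ∧ ∀ μ ν, Equivalent (Φ μ) (Φ ν) ↔ AlgIso μ ν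

/-- The family of brackets is affine. -/
lemma Frame.isAffine (F : Frame L (UIx n r)) :
    IsAffineMap (fun μ : Alg n => (opBracket (F.op μ) : Br L)) := by
  intro x y t
  have h1 : ∀ μ : Alg n, opBracket (F.op μ) = opBracketL L (F.opLin μ) + opBracket (F.op 0) := by
    intro μ
    have h := F.op_add μ 0
    rw [add_zero] at h
    rw [h]
    exact (opBracketL L).map_add _ _
  change opBracket (F.op (t • x + (1 - t) • y)) =
    t • opBracket (F.op x) + (1 - t) • opBracket (F.op y)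
  rw [h1 (t • x + (1 - t) • y), h1 x, h1 y, map_add, map_add, map_smul, map_smul, map_smul,
    map_smul]
  module

theorem Frame.Aff.containsAlgebras [LieAlgebra.IsKilling ℂ L] [FiniteDimensional ℂ L]
    (hF : F.Aff) : ContainsAlgebras n L :=
  ⟨fun μ => opBracket (F.op μ), F.isAffine, fun μ => (hF.op_sqZero μ).compatible, fun _ _ =>
    ⟨hF.algIso_of_equivalent, F.equivalent_of_algIso⟩⟩

theorem containsAlgebras_of_ideal [FiniteDimensional ℂ L] [LieAlgebra.IsSemisimple ℂ L]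
    (I : LieIdeal ℂ L) {F : Frame I (UIx n r)} (hF : F.Aff) : ContainsAlgebras n L := by
  obtain ⟨J, ⟨e⟩⟩ := exists_prod I
  exact ((hF.prod J).transport e).containsAlgebras

end Rev

section Final

open LieAlgebra.SpecialLinear LieAlgebra.Orthogonal LieAlgebra.Symplectic

lemma frame_sl {n N : ℕ} (h : 2 * n + 2 ≤ N) :
    ∃ (r : ℕ) (F : Frame (sl (Fin N) ℂ) (UIx n r)), F.Aff := by
  refine ⟨N - (2 * n + 2), ?_⟩
  have : Nonempty (UIx n (N - (2 * n + 2))) := ⟨Sum.inr (Sum.inl ())⟩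
  exact exists_uframe_sl (by simp; omega)

lemma frame_so {n N : ℕ} (h : 4 * n + 4 ≤ N) :
    ∃ (r : ℕ) (F : Frame (so (Fin N) ℂ) (UIx n r)), F.Aff := by
  refine ⟨N / 2 - (2 * n + 2), ?_⟩
  have : Nonempty (UIx n (N / 2 - (2 * n + 2))) := ⟨Sum.inr (Sum.inl ())⟩
  exact exists_uframe_so (by simp; omega)

lemma frame_sp {n N : ℕ} (h : 2 * n + 2 ≤ N) :
    ∃ (r : ℕ) (F : Frame (sp (Fin N) ℂ) (UIx n r)), F.Aff := by
  refine ⟨N - (2 * n + 2), ?_⟩
  have : Nonempty (UIx n (N - (2 * n + 2))) := ⟨Sum.inr (Sum.inl ())⟩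
  exact exists_uframe_sp (by simp; omega)

end Final

end Pool.Agent.Work.MP_3d4872_al
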